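import Mathlib

set_option autoImplicit false

namespace Pool.Agent.W790.Peps

open Finset

/-- The `L × L` torus. -/
abbrev Torus (L : ℕ) : Type := ZMod L × ZMod L

/-- Classical configurations of `d`-level systems on the torus. -/
abbrev Cfg (d L : ℕ) : Type := Torus L → Fin d

/-- Vectors of `(ℂ^d)^{⊗ L²}`, in the product basis. -/
abbrev Vec (d L : ℕ) : Type := Cfg d L → ℂ

/-- The site of the torus below a site of `ℤ²`. -/
def pt (L : ℕ) (r : ℤ × ℤ) : Torus L := ((r.1 : ZMod L), (r.2 : ZMod L))

/-- The squared Hilbert space norm. -/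
noncomputable def normSq {d L : ℕ} [NeZero L] (Ψ : Vec d L) : ℝ := ∑ σ : Cfg d L, ‖Ψ σ‖ ^ 2

open Classical in
/-- The reduced density matrix on the region `R ⊆ ℤ²` of the normalised vector `Ψ`: the sum, over
all pairs of configurations that agree off `R` and restrict to `a` and `b` on `R`, of
`Ψ σ * conj (Ψ τ)`, divided by the squared norm. -/
noncomputable def redDensity {d L : ℕ} [NeZero L] (R : Finset (ℤ × ℤ)) (Ψ : Vec d L) :
    Matrix (R → Fin d) (R → Fin d) ℂ := fun a b =>
  (∑ σ : Cfg d L, ∑ τ : Cfg d L,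
    if (∀ r : R, σ (pt L r) = a r) ∧ (∀ r : R, τ (pt L r) = b r) ∧
        (∀ x, (∀ r : R, x ≠ pt L r) → σ x = τ x)
      then Ψ σ * starRingEnd ℂ (Ψ τ) else 0) / (normSq Ψ : ℂ)

/-- The trace norm of a square matrix: the sum of its singular values. -/
noncomputable def traceNorm {ι : Type} [Fintype ι] [DecidableEq ι] (M : Matrix ι ι ℂ) : ℝ :=
  ∑ i, Real.sqrt ((Matrix.isHermitian_conjTranspose_mul_self M).eigenvalues i)

/-- A tensor with one physical index of dimension `d` and four virtual indices (left, right, down,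
up) of dimension `D`. -/
abbrev Tensor (d D : ℕ) : Type := Fin d → Fin D → Fin D → Fin D → Fin D → ℂ

/-- The translationally invariant PEPS on the `L × L` torus with tensor `A`: the horizontal edge
to the right of `x` carries the virtual index `h x`, the vertical edge above `x` carries `v x`. -/
noncomputable def peps {d D : ℕ} (A : Tensor d D) (L : ℕ) [NeZero L] : Vec d L := fun σ =>
  ∑ h : Torus L → Fin D, ∑ v : Torus L → Fin D,
    ∏ x : Torus L, A (σ x) (h (x.1 - 1, x.2)) (h x) (v (x.1, x.2 - 1)) (v x)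

/-- Translation of a vector by `t`. -/
def translate {d L : ℕ} (t : Torus L) (Ψ : Vec d L) : Vec d L := fun σ => Ψ (fun x => σ (x + t))

/-- translation invariance up to phases. -/
def TransInv {d L : ℕ} (Ψ : Vec d L) : Prop :=
  ∀ t : Torus L, ∃ c : ℂ, ‖c‖ = 1 ∧ translate t Ψ = c • Ψ

end Pool.Agent.W790.Peps
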