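import Pool.Agent.W790.Peps.Main

set_option autoImplicit false
set_option linter.unusedSectionVars false

namespace Pool.Agent.W790.Peps

open Finset Function

variable {d N L : ℕ} [NeZero N] [NeZero L]

lemma pt_inj (M : ℕ) (R : Finset (ℤ × ℤ)) (r : ℕ) (hR : ∀ x ∈ R, |x.1| ≤ r ∧ |x.2| ≤ r)
    (hM : 2 * r + 1 ≤ M) : Injective (fun x : R => pt M x) := by
  intro x y h
  simp only [pt, Prod.mk.injEq] at h
  obtain ⟨hx1, hx2⟩ := hR x.1 x.2
  obtain ⟨hy1, hy2⟩ := hR y.1 y.2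
  rw [abs_le] at hx1 hx2 hy1 hy2
  have key : ∀ u v : ℤ, -(r : ℤ) ≤ u → u ≤ r → -(r : ℤ) ≤ v → v ≤ r → ((u : ZMod M) = (v : ZMod M)) → u = v := by
    intro u v h1 h2 h3 h4 h5
    rw [ZMod.intCast_eq_intCast_iff_dvd_sub] at h5
    have h6 := Int.eq_zero_of_abs_lt_dvd h5 (by rw [abs_lt]; constructor <;> omega)
    omega
  apply Subtype.ext
  exact Prod.ext (key _ _ hx1.1 hx1.2 hy1.1 hy1.2 h.1) (key _ _ hx2.1 hx2.2 hy2.1 hy2.2 h.2)

open Classical in
/-- bad pairs of phases -/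
noncomputable def Bad (N L r : ℕ) [NeZero N] [NeZero L] : Finset ((ZMod L → Fin (N + 3)) × (ZMod L → Fin (N + 3))) :=
  (phases N L ×ˢ phases N L).filter (fun pq => ¬ Good r pq.1 pq.2)

lemma card_fin_filter_le (S : Finset (Fin (N + 3))) (T : Finset ℕ) (h : ∀ j ∈ S, (j : ℕ) ∈ T) :
    S.card ≤ T.card := by
  rw [← Finset.card_map Fin.valEmbedding]
  apply Finset.card_le_card
  intro i hi
  rw [mem_map] at hi
  obtain ⟨j, hj, rfl⟩ := hi
  exact h j hj

lemma card_Bad (r : ℕ) (hN : 2 * r + 1 ≤ N) :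
    (N + 2) * (Bad N L r).card ≤ (2 * (2 * r + 3)) * (phases N L).card ^ 2 := by
  classical
  set x0 : ZMod L := ((-(r : ℤ) : ℤ) : ZMod L) with hx0
  set S1 : Finset (Fin (N + 3)) := univ.filter (fun j => ¬ (2 ≤ (j : ℕ) ∧ (j : ℕ) + 2 * r ≤ N + 1)) with hS1
  set S2 : Finset (Fin (N + 3)) := univ.filter (fun j => ¬ (1 ≤ (j : ℕ) ∧ (j : ℕ) + 2 * r ≤ N)) with hS2
  have c1 : S1.card ≤ 2 * r + 3 := by
    refine (card_fin_filter_le S1 (range 2 ∪ Ico (N + 2 - 2 * r) (N + 3)) ?_).trans ?_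
    · intro j hj
      rw [hS1, mem_filter] at hj
      rw [mem_union, mem_range, mem_Ico]
      have := j.2
      omega
    · refine (card_union_le _ _).trans ?_
      rw [card_range, Nat.card_Ico]
      omega
  have c2 : S2.card ≤ 2 * r + 3 := by
    refine (card_fin_filter_le S2 (range 1 ∪ Ico (N + 1 - 2 * r) (N + 3)) ?_).trans ?_
    · intro j hj
      rw [hS2, mem_filter] at hj
      rw [mem_union, mem_range, mem_Ico]
      have := j.2
      omega
    · refine (card_union_le _ _).trans ?_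
      rw [card_range, Nat.card_Ico]
      omega
  have hsub : Bad N L r ⊆ (((phases N L).filter (fun p => p x0 ∈ S1)) ×ˢ phases N L) ∪
      (phases N L ×ˢ ((phases N L).filter (fun p => p x0 ∈ S2))) := by
    intro pq hpq
    rw [Bad, mem_filter, mem_product] at hpq
    obtain ⟨⟨h1, h2⟩, h3⟩ := hpq
    simp only [mem_union, mem_product, mem_filter, hS1, hS2]
    by_cases h4 : 2 ≤ (pq.1 x0 : ℕ) ∧ (pq.1 x0 : ℕ) + 2 * r ≤ N + 1
    · right
      refine ⟨h1, h2, mem_univ _, ?_⟩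
      intro h5
      exact h3 ⟨h4.1, h4.2, h5.1, h5.2⟩
    · left
      exact ⟨⟨h1, mem_univ _, h4⟩, h2⟩
  have h5 := (Finset.card_le_card hsub).trans (Finset.card_union_le _ _)
  rw [card_product, card_product] at h5
  have h6 := card_phase_mem_le (N := N) x0 S1
  have h7 := card_phase_mem_le (N := N) x0 S2
  calc (N + 2) * (Bad N L r).card
      ≤ (N + 2) * (((phases N L).filter (fun p => p x0 ∈ S1)).card * (phases N L).card +
        (phases N L).card * ((phases N L).filter (fun p => p x0 ∈ S2)).card) := Nat.mul_le_mul_left _ h5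
    _ = ((N + 2) * ((phases N L).filter (fun p => p x0 ∈ S1)).card) * (phases N L).card +
        ((N + 2) * ((phases N L).filter (fun p => p x0 ∈ S2)).card) * (phases N L).card := by ring
    _ ≤ (S1.card * (phases N L).card) * (phases N L).card + (S2.card * (phases N L).card) * (phases N L).card := by
        gcongr
    _ ≤ ((2 * r + 3) * (phases N L).card) * (phases N L).card + ((2 * r + 3) * (phases N L).card) * (phases N L).card := by
        gcongr
    _ = _ := by ring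

open Classical in
lemma sum_sub {M : Type} [AddCommMonoid M] (B : Finset ((ZMod L → Fin (N + 3)) × (ZMod L → Fin (N + 3))))
    (_hB : B ⊆ phases N L ×ˢ phases N L) (F : (Torus L → Lab d N) → M) :
    ∑ pq ∈ B, ∑ s ∈ univ.filter (fun s : Torus L → Lab d N => Valid s ∧ P s = pq.1 ∧ Q s = pq.2), F s
      = ∑ s ∈ (VS d N L).filter (fun s => (P s, Q s) ∈ B), F s := by
  rw [← Finset.sum_fiberwise_of_maps_to (g := fun s => (P s, Q s)) (t := B)
    (s := (VS d N L).filter (fun s => (P s, Q s) ∈ B))]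
  · apply Finset.sum_congr rfl
    intro pq hpq
    apply Finset.sum_congr _ (fun _ _ => rfl)
    ext s
    simp only [mem_filter, mem_VS, mem_univ, true_and]
    constructor
    · rintro ⟨h1, h2, h3⟩
      have : (P s, Q s) = pq := Prod.ext h2 h3
      exact ⟨⟨h1, this ▸ hpq⟩, this⟩
    · rintro ⟨⟨h1, _⟩, h2⟩
      exact ⟨h1, congrArg Prod.fst h2, congrArg Prod.snd h2⟩
  · intro s hs
    exact (mem_filter.1 hs).2

/-- the main estimate, before normalisation -/
lemma red_Psi_sub (hd : 2 ≤ d) (ψ : Vec d N) (hψ : normSq ψ = 1) (hti : TransInv ψ)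
    (R : Finset (ℤ × ℤ)) (r : ℕ) (hR : ∀ x ∈ R, |x.1| ≤ r ∧ |x.2| ≤ r)
    (hN : 2 * r + 1 ≤ N) (hL : 2 * r + 1 ≤ L) (a b : R → Fin d) :
    ‖red (fun x : R => pt L x) (Psi hd ψ L) a b
        - ((phases N L).card : ℂ) ^ 2 * red (fun x : R => pt N x) ψ a b‖
      ≤ Real.sqrt ((Bad N L r).card) * ((phases N L).card : ℝ) + (Bad N L r).card := by
  classical
  have hfL := pt_inj L R r hR hL
  have hfN := pt_inj N R r hR hN
  set f : R → Torus L := fun x => pt L x with hf
  set ρ := red (fun x : R => pt N x) ψ a b with hρ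
  set G : Cfg d L → ℂ := fun σ => if σ ∘ f = a then
    Psi hd ψ L σ * starRingEnd ℂ (Psi hd ψ L (extend f b σ)) else 0 with hG
  have h1 : red f (Psi hd ψ L) a b = ∑ s ∈ VS d N L, G (Th hd s) := by
    rw [red]
    apply sum_cfg (N := N) hd
    intro σ hσ
    rw [Psi_eq_zero hd ψ hσ]
    simp
  rw [h1, sum_VS]
  set T : (ZMod L → Fin (N + 3)) × (ZMod L → Fin (N + 3)) → ℂ := fun pq =>
    ∑ s ∈ univ.filter (fun s : Torus L → Lab d N => Valid s ∧ P s = pq.1 ∧ Q s = pq.2), G (Th hd s) with hT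
  have h2 : ∑ pq ∈ phases N L ×ˢ phases N L, T pq
      = ∑ pq ∈ (phases N L ×ˢ phases N L).filter (fun pq => Good r pq.1 pq.2), T pq + ∑ pq ∈ Bad N L r, T pq := by
    rw [Bad]
    exact (Finset.sum_filter_add_sum_filter_not _ _ _).symm
  have h3 : ∑ pq ∈ (phases N L ×ˢ phases N L).filter (fun pq => Good r pq.1 pq.2), T pq
      = ((((phases N L ×ˢ phases N L).filter (fun pq => Good r pq.1 pq.2)).card : ℕ) : ℂ) * ρ := by
    rw [Finset.sum_congr rfl (g := fun _ => ρ)]
    · rw [Finset.sum_const, nsmul_eq_mul]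
    · intro pq hpq
      rw [mem_filter, mem_product, mem_phases, mem_phases] at hpq
      exact fiber_good hd ψ hψ hti R r hR hfL hfN pq.1 pq.2 hpq.1.1 hpq.1.2 hpq.2 a b
  have h4 : (((phases N L ×ˢ phases N L).filter (fun pq => Good r pq.1 pq.2)).card : ℕ) + (Bad N L r).card
      = (phases N L).card ^ 2 := by
    rw [Bad, Finset.card_filter_add_card_filter_not, card_product]
    ring
  have h4' : ((((phases N L ×ˢ phases N L).filter (fun pq => Good r pq.1 pq.2)).card : ℕ) : ℂ)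
      = ((phases N L).card : ℂ) ^ 2 - ((Bad N L r).card : ℂ) := by
    rw [eq_sub_iff_add_eq]
    exact_mod_cast h4
  -- the bad part
  set SB : Finset (Torus L → Lab d N) := (VS d N L).filter (fun s => (P s, Q s) ∈ Bad N L r ∧ Th hd s ∘ f = a) with hSB
  have h5 : ∑ pq ∈ Bad N L r, T pq = ∑ σ ∈ SB.image (Th hd), Psi hd ψ L σ * starRingEnd ℂ (Psi hd ψ L (extend f b σ)) := by
    rw [Finset.sum_image (fun s hs s' hs' h => Th_inj hd (mem_filter.1 hs).1 (mem_filter.1 hs').1 h)]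
    rw [hT, sum_sub (Bad N L r) (Finset.filter_subset _ _), ← Finset.filter_filter, Finset.sum_filter (p := fun s => Th hd s ∘ f = a)]
  have h6 : ∑ σ ∈ SB.image (Th hd), ‖Psi hd ψ L σ‖ ^ 2 ≤ ((Bad N L r).card : ℝ) := by
    rw [Finset.sum_image (fun s hs s' hs' h => Th_inj hd (mem_filter.1 hs).1 (mem_filter.1 hs').1 h)]
    calc ∑ s ∈ SB, ‖Psi hd ψ L (Th hd s)‖ ^ 2
        ≤ ∑ s ∈ (VS d N L).filter (fun s => (P s, Q s) ∈ Bad N L r), ‖Psi hd ψ L (Th hd s)‖ ^ 2 := by
          apply Finset.sum_le_sum_of_subset_of_nonneg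
          · intro s hs
            rw [hSB, mem_filter] at hs
            rw [mem_filter]
            exact ⟨hs.1, hs.2.1⟩
          · intro _ _ _; positivity
      _ = ∑ s ∈ (VS d N L).filter (fun s => (P s, Q s) ∈ Bad N L r), ‖W ψ s‖ ^ 2 := by
          apply Finset.sum_congr rfl
          intro s hs
          rw [Psi_Th hd ψ (mem_filter.1 hs).1]
      _ = ∑ pq ∈ Bad N L r, (1 : ℝ) := by
          rw [← sum_sub (Bad N L r) (Finset.filter_subset _ _) (fun s => ‖W ψ s‖ ^ 2)]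
          apply Finset.sum_congr rfl
          intro pq hpq
          rw [Bad, mem_filter, mem_product, mem_phases, mem_phases] at hpq
          exact fiber_norm ψ hψ pq.1 pq.2 hpq.1.1 hpq.1.2
      _ = _ := by simp
  have h7 : ‖∑ pq ∈ Bad N L r, T pq‖ ≤ Real.sqrt ((Bad N L r).card) * ((phases N L).card : ℝ) := by
    rw [h5]
    refine (red_partial_le hfL (Psi hd ψ L) a b _ ?_).trans ?_
    · intro σ hσ
      rw [mem_image] at hσ
      obtain ⟨s, hs, rfl⟩ := hσ
      rw [hSB, mem_filter] at hs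
      exact hs.2.2
    · rw [normSq_Psi hd ψ hψ, Real.sqrt_sq (by positivity)]
      gcongr
  have h8 : ‖ρ‖ ≤ 1 := (red_le hfN ψ a b).trans (le_of_eq hψ)
  have h9 : ∑ pq ∈ phases N L ×ˢ phases N L, T pq - ((phases N L).card : ℂ) ^ 2 * ρ
      = ∑ pq ∈ Bad N L r, T pq - ((Bad N L r).card : ℂ) * ρ := by
    rw [h2, h3, h4']; ring
  rw [h9]
  calc ‖∑ pq ∈ Bad N L r, T pq - ((Bad N L r).card : ℂ) * ρ‖
      ≤ ‖∑ pq ∈ Bad N L r, T pq‖ + ‖((Bad N L r).card : ℂ) * ρ‖ := norm_sub_le _ _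
    _ ≤ Real.sqrt ((Bad N L r).card) * ((phases N L).card : ℝ) + (Bad N L r).card := by
        gcongr
        rw [norm_mul, Complex.norm_natCast]
        exact mul_le_of_le_one_right (by positivity) h8

/-- the main estimate for the entries of the reduced density matrices -/
lemma redDensity_Psi_sub (hd : 2 ≤ d) (ψ : Vec d N) (hψ : normSq ψ = 1) (hti : TransInv ψ)
    (R : Finset (ℤ × ℤ)) (r : ℕ) (hR : ∀ x ∈ R, |x.1| ≤ r ∧ |x.2| ≤ r)
    (hN : 2 * r + 1 ≤ N) (hL : (N + 3) * (N + 3) ≤ L) (a b : R → Fin d) (f : ℝ)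
    (hf : 2 * (2 * r + 3) ≤ f * (N + 2)) :
    ‖redDensity R (Psi hd ψ L) a b - redDensity R ψ a b‖ ≤ Real.sqrt f + f := by
  classical
  have hL' : 2 * r + 1 ≤ L := by nlinarith
  obtain ⟨p0, hp0⟩ := exists_phase N L hL
  have hcard : 0 < (phases N L).card := Finset.card_pos.2 ⟨p0, mem_phases.2 hp0⟩
  have hc : (0 : ℝ) < (phases N L).card := by exact_mod_cast hcard
  rw [redDensity_eq R _ (pt_inj L R r hR hL') a b, redDensity_eq R _ (pt_inj N R r hR hN) a b,
    normSq_Psi hd ψ hψ, hψ]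
  have h1 := red_Psi_sub (L := L) hd ψ hψ hti R r hR hN hL' a b
  set c : ℝ := ((phases N L).card : ℝ) with hcdef
  set B : ℝ := ((Bad N L r).card : ℝ) with hB
  have hBf : B ≤ f * c ^ 2 := by
    have h2 := card_Bad (N := N) (L := L) r hN
    have h3 : ((N : ℝ) + 2) * B ≤ (2 * (2 * r + 3)) * c ^ 2 := by
      rw [hB, hcdef]; exact_mod_cast h2
    have h4 : ((N : ℝ) + 2) * B ≤ (f * (N + 2)) * c ^ 2 := h3.trans (by gcongr)
    have h5 : (0 : ℝ) < (N : ℝ) + 2 := by positivity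
    by_contra h6
    push Not at h6
    nlinarith
  have hf0 : 0 ≤ f := by
    by_contra h
    push Not at h
    have : (0 : ℝ) ≤ B := by rw [hB]; positivity
    nlinarith [mul_pos hc hc]
  have h6 : red (fun x : R => pt L x) (Psi hd ψ L) a b / ((c ^ 2 : ℝ) : ℂ) - red (fun x : R => pt N x) ψ a b / ((1 : ℝ) : ℂ)
      = (red (fun x : R => pt L x) (Psi hd ψ L) a b - ((phases N L).card : ℂ) ^ 2 * red (fun x : R => pt N x) ψ a b) / ((c ^ 2 : ℝ) : ℂ) := by
    have hcC : ((c ^ 2 : ℝ) : ℂ) ≠ 0 := by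
      exact_mod_cast (pow_pos hc 2).ne'
    have : ((c ^ 2 : ℝ) : ℂ) = ((phases N L).card : ℂ) ^ 2 := by rw [hcdef]; push_cast; rfl
    rw [this] at hcC ⊢
    rw [Complex.ofReal_one, div_one, sub_div, mul_div_cancel_left₀ _ hcC]
  rw [h6, norm_div, Complex.norm_real, Real.norm_of_nonneg (by positivity), div_le_iff₀ (by positivity)]
  refine h1.trans ?_
  have h7 : Real.sqrt B ≤ Real.sqrt f * c := by
    rw [← Real.sqrt_sq hc.le, ← Real.sqrt_mul hf0]
    exact Real.sqrt_le_sqrt hBf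
  calc Real.sqrt B * c + B ≤ (Real.sqrt f * c) * c + f * c ^ 2 := by gcongr
    _ = _ := by ring

end Pool.Agent.W790.Peps
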