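import Pool.Agent.W790.Peps.Defs

set_option autoImplicit false

namespace Pool.Agent.W790.Peps

open Finset

open Classical in
/-- The Hamiltonian `H_L = ∑_t τ_t(h)` on the `L × L` torus: `h` acts on the sites `t + s`, `s ∈ S`,
and as the identity on the others, and the sum is over all translations `t` of the torus. -/
noncomputable def hamiltonian {d : ℕ} {S : Finset (ℤ × ℤ)} (h : Matrix (S → Fin d) (S → Fin d) ℂ)
    (L : ℕ) [NeZero L] : Matrix (Cfg d L) (Cfg d L) ℂ := fun σ τ =>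
  ∑ t : Torus L, if (∀ x, (∀ s : S, x ≠ t + pt L s) → σ x = τ x)
    then h (fun s => σ (t + pt L s)) (fun s => τ (t + pt L s)) else 0

/-- `Ψ` is a normalised ground state of `H`, it is unique up to a factor, and the gap above it is at
least `Δ`: `H Ψ = E Ψ`, and `⟨Φ, H Φ⟩ ≥ (E + Δ) ⟨Φ, Φ⟩` for every `Φ` orthogonal to `Ψ`. -/
def IsGappedGroundState {d L : ℕ} [NeZero L] (H : Matrix (Cfg d L) (Cfg d L) ℂ) (Δ : ℝ)
    (Ψ : Vec d L) : Prop :=
  normSq Ψ = 1 ∧ ∃ E : ℝ, H.mulVec Ψ = (E : ℂ) • Ψ ∧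
    ∀ Φ : Vec d L, ∑ σ, starRingEnd ℂ (Ψ σ) * Φ σ = 0 →
      (E + Δ) * normSq Φ ≤ (∑ σ, starRingEnd ℂ (Φ σ) * (H.mulVec Φ) σ).re

variable {d L : ℕ} [NeZero L]

/-- translation of configurations -/
def sh (t : Torus L) : Cfg d L ≃ Cfg d L where
  toFun σ := fun x => σ (x + t)
  invFun σ := fun x => σ (x - t)
  left_inv σ := by funext x; simp
  right_inv σ := by funext x; simp

lemma hamiltonian_sh {S : Finset (ℤ × ℤ)} (h : Matrix (S → Fin d) (S → Fin d) ℂ) (t : Torus L)
    (σ τ : Cfg d L) : hamiltonian h L (sh t σ) (sh t τ) = hamiltonian h L σ τ := by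
  classical
  rw [hamiltonian, hamiltonian]
  symm
  rw [← Equiv.sum_comp (Equiv.addRight t)]
  symm
  apply Finset.sum_congr rfl
  intro u _
  have hu : (Equiv.addRight t) u = u + t := rfl
  rw [hu]
  have e : ∀ (ρ : Cfg d L) (s : S), sh t ρ (u + pt L s) = ρ (u + t + pt L s) := by
    intro ρ s
    change ρ (u + pt L s + t) = _
    congr 1
    abel
  have hc : (∀ x, (∀ s : S, x ≠ u + pt L s) → sh t σ x = sh t τ x)
      ↔ (∀ x, (∀ s : S, x ≠ u + t + pt L s) → σ x = τ x) := by
    constructor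
    · intro H x hx
      have := H (x - t) (fun s hs => hx s (by
        have : x = u + pt L s + t := by rw [← hs]; abel
        rw [this]; abel))
      simpa [sh] using this
    · intro H x hx
      have := H (x + t) (fun s hs => hx s (by
        have : x + t = (u + pt L s) + t := by rw [hs]; abel
        exact add_right_cancel this))
      simpa [sh] using this
  have e1 : (fun s : S => sh t σ (u + pt L s)) = fun s : S => σ (u + t + pt L s) := funext (e σ)
  have e2 : (fun s : S => sh t τ (u + pt L s)) = fun s : S => τ (u + t + pt L s) := funext (e τ)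
  rw [e1, e2]
  by_cases H : ∀ x, (∀ s : S, x ≠ u + t + pt L s) → σ x = τ x
  · rw [if_pos H, if_pos (hc.2 H)]
  · rw [if_neg H, if_neg (fun H' => H (hc.1 H'))]

/-- a unique ground state is translation invariant up to phases. -/
lemma IsGappedGroundState.transInv {S : Finset (ℤ × ℤ)} {h : Matrix (S → Fin d) (S → Fin d) ℂ}
    {Δ : ℝ} (hΔ : 0 < Δ) {Ψ : Vec d L} (hg : IsGappedGroundState (hamiltonian h L) Δ Ψ) :
    TransInv Ψ := by
  intro t
  obtain ⟨hn, E, hE, hgap⟩ := hg
  set Φ : Vec d L := translate t Ψ with hΦ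
  have hΦ' : ∀ σ, Φ σ = Ψ (sh t σ) := fun σ => rfl
  have hHΦ : (hamiltonian h L).mulVec Φ = (E : ℂ) • Φ := by
    funext σ
    have h1 : (hamiltonian h L).mulVec Φ σ = (hamiltonian h L).mulVec Ψ (sh t σ) := by
      rw [Matrix.mulVec, Matrix.mulVec, dotProduct, dotProduct]
      symm
      rw [← Equiv.sum_comp (sh t)]
      apply Finset.sum_congr rfl
      intro τ _
      rw [hamiltonian_sh, hΦ']
    rw [h1, hE]
    rfl
  have hnΦ : normSq Φ = 1 := by
    rw [← hn, normSq, normSq]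
    symm
    rw [← Equiv.sum_comp (sh t)]
    rfl
  set c : ℂ := ∑ σ, starRingEnd ℂ (Ψ σ) * Φ σ with hc
  set X : Vec d L := Φ - c • Ψ with hX
  have hself : ∑ σ, starRingEnd ℂ (Ψ σ) * Ψ σ = 1 := by
    have : ∑ σ, starRingEnd ℂ (Ψ σ) * Ψ σ = ((normSq Ψ : ℝ) : ℂ) := by
      rw [normSq, Complex.ofReal_sum]
      apply Finset.sum_congr rfl
      intro σ _
      rw [mul_comm, Complex.mul_conj, Complex.normSq_eq_norm_sq]
    rw [this, hn]; simp
  have horth : ∑ σ, starRingEnd ℂ (Ψ σ) * X σ = 0 := by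
    have : ∑ σ, starRingEnd ℂ (Ψ σ) * X σ = ∑ σ, starRingEnd ℂ (Ψ σ) * Φ σ - c * ∑ σ, starRingEnd ℂ (Ψ σ) * Ψ σ := by
      rw [Finset.mul_sum, ← Finset.sum_sub_distrib]
      apply Finset.sum_congr rfl
      intro σ _
      simp only [hX, Pi.sub_apply, Pi.smul_apply, smul_eq_mul]
      ring
    rw [this, hself, ← hc]; ring
  have hHX : (hamiltonian h L).mulVec X = (E : ℂ) • X := by
    rw [hX, Matrix.mulVec_sub, Matrix.mulVec_smul, hHΦ, hE, smul_sub, smul_comm]
  have h2 := hgap X horth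
  have h3 : (∑ σ, starRingEnd ℂ (X σ) * ((hamiltonian h L).mulVec X) σ).re = E * normSq X := by
    have : ∑ σ, starRingEnd ℂ (X σ) * ((hamiltonian h L).mulVec X) σ = ((E * normSq X : ℝ) : ℂ) := by
      rw [hHX, normSq, Complex.ofReal_mul, Complex.ofReal_sum, Finset.mul_sum]
      apply Finset.sum_congr rfl
      intro σ _
      rw [Pi.smul_apply, smul_eq_mul, mul_left_comm]
      congr 1
      rw [mul_comm, Complex.mul_conj, Complex.normSq_eq_norm_sq]
    rw [this, Complex.ofReal_re]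
  rw [h3] at h2
  have hX0 : normSq X = 0 := by
    have h4 : 0 ≤ normSq X := Finset.sum_nonneg (fun _ _ => by positivity)
    nlinarith
  have hXz : X = 0 := by
    funext σ
    rw [normSq] at hX0
    have := (Finset.sum_eq_zero_iff_of_nonneg (fun σ _ => by positivity)).1 hX0 σ (mem_univ σ)
    simpa using this
  have hΦc : Φ = c • Ψ := sub_eq_zero.1 hXz
  refine ⟨c, ?_, hΦc⟩
  have h5 : normSq Φ = ‖c‖ ^ 2 * normSq Ψ := by
    rw [hΦc, normSq, normSq, Finset.mul_sum]
    apply Finset.sum_congr rfl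
    intro σ _
    rw [Pi.smul_apply, smul_eq_mul, norm_mul, mul_pow]
  rw [hnΦ, hn, mul_one] at h5
  have h6 : ‖c‖ ^ 2 = 1 := h5.symm
  nlinarith [norm_nonneg c]

end Pool.Agent.W790.Peps
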