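import Pool.Agent.W790.Peps.Est
import Pool.Agent.W790.Peps.Ham

set_option autoImplicit false
set_option linter.unusedSectionVars false

namespace Pool.Agent.W790.Peps

open Finset Function

/-- the PEPS with integer labels -/
lemma exists_tensor {d N : ℕ} [NeZero N] (hd : 2 ≤ d) (ψ : Vec d N) :
    ∃ (D : ℕ) (A : Tensor d D), ∀ (L : ℕ) [NeZero L], peps A L = Psi hd ψ L := by
  classical
  set e := (Fintype.equivFin (Lab d N)).symm with he
  refine ⟨Fintype.card (Lab d N), fun σ l r b t => AB hd ψ σ (e l) (e r) (e b) (e t), ?_⟩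
  intro L _
  funext σ
  rw [peps, Psi, pepsG]
  set E : (Torus L → Fin (Fintype.card (Lab d N))) ≃ (Torus L → Lab d N) := Equiv.arrowCongr (Equiv.refl _) e with hE
  have hEa : ∀ (g : Torus L → Fin (Fintype.card (Lab d N))) x, E g x = e (g x) := fun g x => rfl
  symm
  rw [← Equiv.sum_comp E]
  apply Finset.sum_congr rfl
  intro g _
  rw [← Equiv.sum_comp E]
  apply Finset.sum_congr rfl
  intro v _
  simp only [hEa]

lemma exists_radius (R : Finset (ℤ × ℤ)) : ∃ r : ℕ, ∀ x ∈ R, |x.1| ≤ r ∧ |x.2| ≤ r := by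
  refine ⟨∑ x ∈ R, (x.1.natAbs + x.2.natAbs), ?_⟩
  intro x hx
  have h1 : x.1.natAbs + x.2.natAbs ≤ ∑ x ∈ R, (x.1.natAbs + x.2.natAbs) :=
    Finset.single_le_sum (f := fun x : ℤ × ℤ => x.1.natAbs + x.2.natAbs) (fun _ _ => Nat.zero_le _) hx
  constructor
  · rw [Int.abs_eq_natAbs]; exact_mod_cast (le_trans (Nat.le_add_right _ _) h1)
  · rw [Int.abs_eq_natAbs]; exact_mod_cast (le_trans (Nat.le_add_left _ _) h1)

lemma redDensity_le_one {d L : ℕ} [NeZero L] (R : Finset (ℤ × ℤ)) (r : ℕ)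
    (hR : ∀ x ∈ R, |x.1| ≤ r ∧ |x.2| ≤ r) (hL : 2 * r + 1 ≤ L) (Ψ : Vec d L) (hn : normSq Ψ = 1)
    (a b : R → Fin d) : ‖redDensity R Ψ a b‖ ≤ 1 := by
  rw [redDensity_eq R Ψ (pt_inj L R r hR hL), hn]
  simp only [Complex.ofReal_one, div_one]
  exact (red_le (pt_inj L R r hR hL) Ψ a b).trans (le_of_eq hn)

lemma ne_zero_Psi {d N L : ℕ} [NeZero N] [NeZero L] (hd : 2 ≤ d) (ψ : Vec d N) (hψ : normSq ψ = 1)
    (hL : (N + 3) * (N + 3) ≤ L) : Psi hd ψ L ≠ 0 := by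
  intro h
  have h1 := normSq_Psi (L := L) hd ψ hψ
  rw [h] at h1
  obtain ⟨p0, hp0⟩ := exists_phase N L hL
  have hcard : 0 < (phases N L).card := Finset.card_pos.2 ⟨p0, mem_phases.2 hp0⟩
  have h2 : normSq (0 : Vec d L) = 0 := by simp [normSq]
  rw [h2] at h1
  have : (0 : ℝ) < ((phases N L).card : ℝ) ^ 2 := by positivity
  linarith

/-- one block size that works -/
lemma good_block {d : ℕ} (hd : 2 ≤ d) (R : Finset (ℤ × ℤ)) (δ : ℝ) (hδ : 0 < δ) :
    ∃ N₀ : ℕ, ∀ (N : ℕ) [NeZero N], N₀ ≤ N → ∀ ψ : Vec d N, normSq ψ = 1 → TransInv ψ →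
      ∃ (D : ℕ) (A : Tensor d D), ∀ (L : ℕ) [NeZero L], (N + 3) * (N + 3) ≤ L →
        peps A L ≠ 0 ∧ ∀ a b, ‖redDensity R (peps A L) a b - redDensity R ψ a b‖ ≤ δ := by
  obtain ⟨r, hR⟩ := exists_radius R
  set η : ℝ := min (δ / 2) ((δ / 2) ^ 2) with hη
  have hη0 : 0 < η := lt_min (by positivity) (by positivity)
  obtain ⟨n, hn⟩ := exists_nat_ge (2 * (2 * r + 3) / η)
  refine ⟨max n (2 * r + 1), ?_⟩
  intro N _ hN ψ hψ hti
  obtain ⟨D, A, hA⟩ := exists_tensor hd ψ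
  refine ⟨D, A, ?_⟩
  intro L _ hL
  rw [hA L]
  refine ⟨ne_zero_Psi hd ψ hψ hL, ?_⟩
  intro a b
  have hNn : (n : ℝ) ≤ N := by exact_mod_cast (le_max_left _ _).trans hN
  have hf : 2 * (2 * (r : ℝ) + 3) ≤ η * (N + 2) := by
    have h1 : 2 * (2 * (r : ℝ) + 3) ≤ n * η := by
      rw [div_le_iff₀ hη0] at hn
      exact hn
    nlinarith
  refine (redDensity_Psi_sub hd ψ hψ hti R r hR ((le_max_right _ _).trans hN) hL a b η hf).trans ?_
  have h2 : Real.sqrt η ≤ δ / 2 := by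
    rw [Real.sqrt_le_left (by positivity)]
    exact min_le_right _ _
  have h3 : η ≤ δ / 2 := min_le_left _ _
  linarith

/-- one-level systems -/
lemma redDensity_one {L : ℕ} [NeZero L] (R : Finset (ℤ × ℤ)) (Ψ : Vec 1 L) (hΨ : Ψ ≠ 0)
    (a b : R → Fin 1) : redDensity R Ψ a b = 1 := by
  classical
  have hu : ∀ σ : Cfg 1 L, σ = default := fun σ => Subsingleton.elim _ _
  have h0 : Ψ default ≠ 0 := by
    intro h
    apply hΨ
    funext σ
    rw [hu σ, h]; rfl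
  rw [redDensity]
  have h1 : normSq Ψ = ‖Ψ default‖ ^ 2 := by
    rw [normSq, Fintype.sum_unique]
  rw [h1, Fintype.sum_unique, Fintype.sum_unique, if_pos]
  · rw [Complex.mul_conj, Complex.normSq_eq_norm_sq]
    apply div_self
    exact_mod_cast (pow_pos (norm_pos_iff.2 h0) 2).ne'
  · refine ⟨fun _ => Subsingleton.elim _ _, fun _ => Subsingleton.elim _ _, fun _ _ => rfl⟩

end Pool.Agent.W790.Peps
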