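import Pool.Agent.W790.Peps.Defs

set_option autoImplicit false

namespace Pool.Agent.W790.Peps

open Finset Function
open scoped ComplexOrder

variable {d L : ℕ} [NeZero L] {ι : Type} [Fintype ι]

open Classical in
/-- unnormalised reduced density matrix for sites placed by `f`. -/
noncomputable def red (f : ι → Torus L) (Ψ : Vec d L) (a b : ι → Fin d) : ℂ :=
  ∑ σ : Cfg d L, if σ ∘ f = a then Ψ σ * starRingEnd ℂ (Ψ (extend f b σ)) else 0

lemma ext_comp {f : ι → Torus L} (hf : Injective f) (b : ι → Fin d) (σ : Cfg d L) :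
    extend f b σ ∘ f = b := by
  funext r; simp [hf.extend_apply]

lemma ext_ext {f : ι → Torus L} (hf : Injective f) (b : ι → Fin d) (σ : Cfg d L) :
    extend f (σ ∘ f) (extend f b σ) = σ := by
  classical
  funext x
  by_cases h : ∃ r, f r = x
  · obtain ⟨r, rfl⟩ := h
    rw [hf.extend_apply]; rfl
  · rw [extend_apply' _ _ _ h, extend_apply' _ _ _ h]

lemma redDensity_eq (R : Finset (ℤ × ℤ)) (Ψ : Vec d L) (hf : Injective (fun r : R => pt L r))
    (a b : R → Fin d) :
    redDensity R Ψ a b = red (fun r : R => pt L r) Ψ a b / (normSq Ψ : ℂ) := by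
  classical
  rw [redDensity, red]
  congr 1
  apply Finset.sum_congr rfl
  intro σ _
  by_cases hσ : σ ∘ (fun r : R => pt L r) = a
  · rw [if_pos hσ, Finset.sum_eq_single (extend (fun r : R => pt L r) b σ)]
    · rw [if_pos]
      refine ⟨fun r => congrFun hσ r, fun r => ?_, fun x hx => ?_⟩
      · exact hf.extend_apply _ _ r
      · rw [extend_apply']
        rintro ⟨r, hr⟩
        exact hx r hr.symm
    · intro τ _ hne
      rw [if_neg]
      rintro ⟨_, h2, h3⟩
      apply hne
      funext x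
      by_cases h : ∃ r : R, pt L r = x
      · obtain ⟨r, rfl⟩ := h
        rw [h2 r]
        exact (hf.extend_apply _ _ r).symm
      · rw [extend_apply' _ _ _ h]
        exact (h3 x (fun r hr => h ⟨r, hr.symm⟩)).symm
    · intro h; exact absurd (mem_univ _) h
  · rw [if_neg hσ]
    apply Finset.sum_eq_zero
    intro τ _
    rw [if_neg]
    rintro ⟨h1, _, _⟩
    exact hσ (funext h1)

lemma normSq_nonneg (Ψ : Vec d L) : 0 ≤ normSq Ψ := Finset.sum_nonneg (fun _ _ => by positivity)

/-- Cauchy–Schwarz for the reduced density matrix, over any set of configurations. -/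
lemma red_partial_le {f : ι → Torus L} (hf : Injective f) (Ψ : Vec d L) (a b : ι → Fin d)
    (S : Finset (Cfg d L)) (hS : ∀ σ ∈ S, σ ∘ f = a) :
    ‖∑ σ ∈ S, Ψ σ * starRingEnd ℂ (Ψ (extend f b σ))‖
      ≤ Real.sqrt (∑ σ ∈ S, ‖Ψ σ‖ ^ 2) * Real.sqrt (normSq Ψ) := by
  classical
  calc ‖∑ σ ∈ S, Ψ σ * starRingEnd ℂ (Ψ (extend f b σ))‖
      ≤ ∑ σ ∈ S, ‖Ψ σ * starRingEnd ℂ (Ψ (extend f b σ))‖ := norm_sum_le _ _
    _ = ∑ σ ∈ S, ‖Ψ σ‖ * ‖Ψ (extend f b σ)‖ := by
        apply Finset.sum_congr rfl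
        intro σ _
        rw [norm_mul, RCLike.norm_conj]
    _ ≤ Real.sqrt (∑ σ ∈ S, ‖Ψ σ‖ ^ 2) * Real.sqrt (∑ σ ∈ S, ‖Ψ (extend f b σ)‖ ^ 2) :=
        Real.sum_mul_le_sqrt_mul_sqrt _ _ _
    _ ≤ Real.sqrt (∑ σ ∈ S, ‖Ψ σ‖ ^ 2) * Real.sqrt (normSq Ψ) := by
        apply mul_le_mul_of_nonneg_left _ (Real.sqrt_nonneg _)
        apply Real.sqrt_le_sqrt
        have hinj : Set.InjOn (fun σ : Cfg d L => extend f b σ) (S : Set (Cfg d L)) := by
          intro σ hσ τ hτ h
          have h1 := ext_ext hf b σ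
          have h2 := ext_ext hf b τ
          rw [hS σ hσ] at h1
          rw [hS τ hτ] at h2
          simp only at h
          rw [← h1, ← h2, h]
        rw [normSq, ← Finset.sum_image (f := fun τ => ‖Ψ τ‖ ^ 2) hinj]
        exact Finset.sum_le_sum_of_subset_of_nonneg (Finset.subset_univ _) (fun _ _ _ => by positivity)

lemma red_le {f : ι → Torus L} (hf : Injective f) (Ψ : Vec d L) (a b : ι → Fin d) :
    ‖red f Ψ a b‖ ≤ normSq Ψ := by
  classical
  rw [red, ← Finset.sum_filter]
  refine (red_partial_le hf Ψ a b _ (fun σ hσ => (mem_filter.1 hσ).2)).trans ?_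
  calc Real.sqrt (∑ σ ∈ univ.filter (fun σ : Cfg d L => σ ∘ f = a), ‖Ψ σ‖ ^ 2) * Real.sqrt (normSq Ψ)
      ≤ Real.sqrt (normSq Ψ) * Real.sqrt (normSq Ψ) := by
        apply mul_le_mul_of_nonneg_right _ (Real.sqrt_nonneg _)
        apply Real.sqrt_le_sqrt
        exact Finset.sum_le_sum_of_subset_of_nonneg (Finset.subset_univ _) (fun _ _ _ => by positivity)
    _ = normSq Ψ := Real.mul_self_sqrt (normSq_nonneg Ψ)

/-- the reduced density matrix of a translation invariant vector does not depend on the place. -/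
lemma red_translate {f : ι → Torus L} (hf : Injective f) (Ψ : Vec d L) (hΨ : TransInv Ψ)
    (t : Torus L) (a b : ι → Fin d) :
    red (fun r => f r + t) Ψ a b = red f Ψ a b := by
  classical
  obtain ⟨c, hc, hct⟩ := hΨ t
  rw [red, red]
  let e : Cfg d L ≃ Cfg d L := (Equiv.addRight t).arrowCongr (Equiv.refl _)
  have he : ∀ σ x, e σ (x + t) = σ x := by
    intro σ x
    simp [e, Equiv.arrowCongr]
  rw [← Equiv.sum_comp e]
  apply Finset.sum_congr rfl
  intro σ _
  have h1 : (e σ ∘ fun r => f r + t) = σ ∘ f := by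
    funext r
    simp only [comp_apply]
    exact he σ (f r)
  have h2 : ∀ τ : Cfg d L, Ψ τ = c * Ψ (e τ) := by
    intro τ
    have := congrFun hct (e τ)
    rw [translate] at this
    simp only [Pi.smul_apply, smul_eq_mul] at this
    rw [← this]
    congr 1
    funext x
    exact (he τ x).symm
  have h3 : extend (fun r => f r + t) b (e σ) = e (extend f b σ) := by
    funext x
    have hx : x = (x - t) + t := by rw [sub_add_cancel]
    rw [hx, he]
    by_cases h : ∃ r, f r = x - t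
    · obtain ⟨r, hr⟩ := h
      rw [← hr, hf.extend_apply]
      have hinj : Injective (fun r => f r + t) := (add_left_injective t).comp hf
      exact hinj.extend_apply _ _ r
    · rw [extend_apply' _ _ _ h, extend_apply']
      · exact he σ (x - t)
      · rintro ⟨r, hr⟩
        exact h ⟨r, add_right_cancel hr⟩
  rw [h1, h3, h2 σ, h2 (extend f b σ)]
  congr 1
  rw [map_mul]
  have : c * starRingEnd ℂ c = 1 := by
    rw [Complex.mul_conj, Complex.normSq_eq_norm_sq, hc]; norm_num
  calc Ψ (e σ) * starRingEnd ℂ (Ψ (e (extend f b σ)))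
      = (c * starRingEnd ℂ c) * (Ψ (e σ) * starRingEnd ℂ (Ψ (e (extend f b σ)))) := by rw [this, one_mul]
    _ = _ := by ring

/-- the trace norm is small when all entries are small. -/
lemma traceNorm_le {κ : Type} [Fintype κ] [DecidableEq κ] (M : Matrix κ κ ℂ) (δ : ℝ) (hδ : 0 ≤ δ)
    (hM : ∀ a b, ‖M a b‖ ≤ δ) : traceNorm M ≤ (Fintype.card κ : ℝ) ^ 2 * δ := by
  classical
  rw [traceNorm]
  set lam := (Matrix.isHermitian_conjTranspose_mul_self M).eigenvalues with hlam
  have hpos : ∀ i, 0 ≤ lam i := fun i => (Matrix.posSemidef_conjTranspose_mul_self M).eigenvalues_nonneg i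
  have htr : ∑ i, lam i = ∑ i, ∑ j, ‖M j i‖ ^ 2 := by
    have h1 := (Matrix.isHermitian_conjTranspose_mul_self M).trace_eq_sum_eigenvalues
    have h2 : (M.conjTranspose * M).trace = ((∑ i, ∑ j, ‖M j i‖ ^ 2 : ℝ) : ℂ) := by
      rw [Matrix.trace]
      push_cast
      apply Finset.sum_congr rfl
      intro i _
      rw [Matrix.diag_apply, Matrix.mul_apply]
      apply Finset.sum_congr rfl
      intro j _
      rw [Matrix.conjTranspose_apply, mul_comm]
      have := Complex.mul_conj (M j i)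
      rw [Complex.normSq_eq_norm_sq] at this
      rw [← Complex.ofReal_pow, ← this]
      rfl
    rw [h2] at h1
    have h3 : ((∑ i, ∑ j, ‖M j i‖ ^ 2 : ℝ) : ℂ) = ((∑ i, lam i : ℝ) : ℂ) := by
      rw [h1]; push_cast; rfl
    exact (Complex.ofReal_injective h3).symm
  have h4 : (∑ i, Real.sqrt (lam i)) ≤ Real.sqrt ((Fintype.card κ : ℝ) * ∑ i, lam i) := by
    apply Real.le_sqrt_of_sq_le
    have := sq_sum_le_card_mul_sum_sq (s := (univ : Finset κ)) (f := fun i => Real.sqrt (lam i))
    refine this.trans (le_of_eq ?_)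
    rw [Finset.card_univ]
    congr 1
    apply Finset.sum_congr rfl
    intro i _
    exact Real.sq_sqrt (hpos i)
  refine h4.trans ?_
  rw [htr]
  apply Real.sqrt_le_iff.2
  refine ⟨by positivity, ?_⟩
  have h5 : ∑ i, ∑ j, ‖M j i‖ ^ 2 ≤ ∑ _i : κ, ∑ _j : κ, δ ^ 2 := by
    apply Finset.sum_le_sum; intro i _
    apply Finset.sum_le_sum; intro j _
    exact pow_le_pow_left₀ (norm_nonneg _) (hM j i) 2
  have h6 : ∑ _i : κ, ∑ _j : κ, δ ^ 2 = (Fintype.card κ : ℝ) ^ 2 * δ ^ 2 := by
    simp [Finset.sum_const, Finset.card_univ]; ring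
  rw [h6] at h5
  rcases Nat.eq_zero_or_pos (Fintype.card κ) with h0 | h0
  · rw [h0]; simp
  · have h7 : (1 : ℝ) ≤ (Fintype.card κ : ℝ) := by exact_mod_cast h0
    calc (Fintype.card κ : ℝ) * ∑ i, ∑ j, ‖M j i‖ ^ 2
        ≤ (Fintype.card κ : ℝ) * ((Fintype.card κ : ℝ) ^ 2 * δ ^ 2) := by
          apply mul_le_mul_of_nonneg_left h5 (by positivity)
      _ ≤ (Fintype.card κ : ℝ) * ((Fintype.card κ : ℝ) * ((Fintype.card κ : ℝ) ^ 2 * δ ^ 2)) := by
          apply mul_le_mul_of_nonneg_left _ (by positivity)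
          exact le_mul_of_one_le_left (by positivity) h7
      _ = _ := by ring

end Pool.Agent.W790.Peps
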