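import Pool.Agent.W790.Peps.Phase
import Pool.Agent.W790.Peps.Red

set_option autoImplicit false
set_option linter.unusedSectionVars false

namespace Pool.Agent.W790.Peps

open Finset Function

/-- labels: horizontal phase, vertical phase, content of the block. -/
abbrev Lab (d N : ℕ) : Type := Fin (N + 3) × Fin (N + 3) × Cfg d N

variable {d N L : ℕ}

/-- the letter written at a site with a given label. -/
def letter (hd : 2 ≤ d) (s : Lab d N) : Fin d :=
  if (s.1 : ℕ) = 0 then ⟨0, by omega⟩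
  else if (s.2.1 : ℕ) = 0 then ⟨1, by omega⟩
  else if (s.1 : ℕ) = 1 then ⟨0, by omega⟩
  else if (s.1 : ℕ) ≤ N + 1 ∧ (s.2.1 : ℕ) ≤ N then
    s.2.2 (((s.1 : ℕ) : ZMod N) - 2, ((s.2.1 : ℕ) : ZMod N) - 1)
  else ⟨0, by omega⟩

def OkH (l r : Lab d N) : Prop :=
  Step N l.1 r.1 ∧ r.2.1 = l.2.1 ∧ ((r.1 : ℕ) ≠ 0 → r.2.2 = l.2.2)

def OkV (b t : Lab d N) : Prop :=
  t.1 = b.1 ∧ Step N b.2.1 t.2.1 ∧ ((t.2.1 : ℕ) ≠ 0 → t.2.2 = b.2.2)

/-- the weight of a label: the amplitude of the content, at the corner of the block. -/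
noncomputable def wt (ψ : Vec d N) (s : Lab d N) : ℂ :=
  if (s.1 : ℕ) = 0 ∧ (s.2.1 : ℕ) = 0 then ψ s.2.2 else 1

def Valid (s : Torus L → Lab d N) : Prop :=
  ∀ x, OkH (s (x.1 - 1, x.2)) (s x) ∧ OkV (s (x.1, x.2 - 1)) (s x)

lemma const_of_shift {α : Type} [NeZero L] (f : ZMod L → α) (h : ∀ y, f y = f (y - 1)) (y : ZMod L) :
    f y = f 0 := by
  have key : ∀ k : ℕ, f (k : ZMod L) = f 0 := by
    intro k
    induction k with
    | zero => simp
    | succ k ih =>
      rw [h, ← ih]
      congr 1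
      push_cast; ring
  have := key y.val
  rwa [ZMod.natCast_zmod_val] at this

/-- horizontal phase function of a labelling -/
def P (s : Torus L → Lab d N) : ZMod L → Fin (N + 3) := fun x => (s (x, 0)).1
/-- vertical phase function of a labelling -/
def Q (s : Torus L → Lab d N) : ZMod L → Fin (N + 3) := fun y => (s (0, y)).2.1

lemma Valid.P {s : Torus L → Lab d N} (hs : Valid s) : IsPhase N L (P s) := fun x => (hs (x, 0)).1.1

lemma Valid.Q {s : Torus L → Lab d N} (hs : Valid s) : IsPhase N L (Q s) := fun y => (hs (0, y)).2.2.1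

lemma Valid.fst [NeZero L] {s : Torus L → Lab d N} (hs : Valid s) (x : Torus L) :
    (s x).1 = Peps.P s x.1 := by
  have := const_of_shift (fun y => (s (x.1, y)).1) (fun y => (hs (x.1, y)).2.1) x.2
  exact this

lemma Valid.snd [NeZero L] {s : Torus L → Lab d N} (hs : Valid s) (x : Torus L) :
    (s x).2.1 = Peps.Q s x.2 := by
  have := const_of_shift (fun y => (s (y, x.2)).2.1) (fun y => (hs (y, x.2)).1.2.1) x.1
  exact this

/-- the corner of the block of a site -/
def cor (p q : ZMod L → Fin (N + 3)) (x : Torus L) : Torus L :=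
  (x.1 - ((p x.1 : ℕ) : ZMod L), x.2 - ((q x.2 : ℕ) : ZMod L))

lemma Valid.cont [NeZero L] {s : Torus L → Lab d N} (hs : Valid s) (x : Torus L) :
    (s x).2.2 = (s (cor (Peps.P s) (Peps.Q s) x)).2.2 := by
  have h1 : ∀ i : ℕ, i ≤ (Peps.P s x.1 : ℕ) → (s (x.1 - (i : ZMod L), x.2)).2.2 = (s x).2.2 := by
    intro i
    induction i with
    | zero => intro _; simp
    | succ i ih =>
      intro hi
      have h2 := ih (by omega)
      have h3 := (hs (x.1 - (i : ZMod L), x.2)).1.2.2
      have h4 : ((s (x.1 - (i : ZMod L), x.2)).1 : ℕ) ≠ 0 := by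
        rw [hs.fst]
        have := hs.P.bwd x.1 i (by omega)
        simp only
        omega
      have h5 := h3 h4
      simp only at h5
      rw [← h2, h5]
      congr 3
      push_cast; ring_nf
  have h6 : ∀ j : ℕ, j ≤ (Peps.Q s x.2 : ℕ) → ∀ y, (s (y, x.2 - (j : ZMod L))).2.2 = (s (y, x.2)).2.2 := by
    intro j
    induction j with
    | zero => intro _ y; simp
    | succ j ih =>
      intro hj y
      have h2 := ih (by omega) y
      have h3 := (hs (y, x.2 - (j : ZMod L))).2.2.2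
      have h4 : ((s (y, x.2 - (j : ZMod L))).2.1 : ℕ) ≠ 0 := by
        rw [hs.snd]
        have := hs.Q.bwd x.2 j (by omega)
        simp only
        omega
      have h5 := h3 h4
      simp only at h5
      rw [← h2, h5]
      congr 3
      push_cast; ring_nf
  rw [cor, h6 _ le_rfl, h1 _ le_rfl]

/-- equality of labellings from phases and contents at the corners -/
lemma Valid.ext [NeZero L] {s s' : Torus L → Lab d N} (hs : Valid s) (hs' : Valid s')
    (hP : Peps.P s = Peps.P s') (hQ : Peps.Q s = Peps.Q s')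
    (hc : ∀ k : Torus L, (Peps.P s k.1 : ℕ) = 0 → (Peps.Q s k.2 : ℕ) = 0 → (s k).2.2 = (s' k).2.2) :
    s = s' := by
  funext x
  have h1 : (s x).1 = (s' x).1 := by rw [hs.fst, hs'.fst, hP]
  have h2 : (s x).2.1 = (s' x).2.1 := by rw [hs.snd, hs'.snd, hQ]
  have h3 : (s x).2.2 = (s' x).2.2 := by
    rw [hs.cont, hs'.cont, ← hP, ← hQ]
    exact hc _ (hs.P.zero x.1) (hs.Q.zero x.2)
  exact Prod.ext h1 (Prod.ext h2 h3)

lemma letter_content (hd : 2 ≤ d) (s : Lab d N) (h1 : 2 ≤ (s.1 : ℕ)) (h2 : (s.1 : ℕ) ≤ N + 1)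
    (h3 : 1 ≤ (s.2.1 : ℕ)) (h4 : (s.2.1 : ℕ) ≤ N) :
    letter hd s = s.2.2 (((s.1 : ℕ) : ZMod N) - 2, ((s.2.1 : ℕ) : ZMod N) - 1) := by
  rw [letter, if_neg (by omega), if_neg (by omega), if_neg (by omega), if_pos ⟨h2, h4⟩]

lemma Valid.letter_inj [NeZero L] [NeZero N] (hd : 2 ≤ d) {s s' : Torus L → Lab d N} (hs : Valid s)
    (hs' : Valid s') (h : ∀ x, letter hd (s x) = letter hd (s' x)) : s = s' := by
  have h01 : (⟨0, by omega⟩ : Fin d) ≠ ⟨1, by omega⟩ := by
    intro h; simp at h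
  -- the zeros of the horizontal phase are the columns of zeros
  have hA : ∀ {s : Torus L → Lab d N}, Valid s → ∀ x, ((Peps.P s x : ℕ) = 0 ↔
      ∀ y, letter hd (s (x, y)) = ⟨0, by omega⟩) := by
    intro s hs x
    constructor
    · intro hx y
      rw [letter, if_pos]
      rw [hs.fst]; exact hx
    · intro hy
      by_contra hx
      have h1 := hs.Q.zero 0
      have h2 := hy (0 - ((Peps.Q s 0 : ℕ) : ZMod L))
      rw [letter, if_neg (by rw [hs.fst]; exact hx), if_pos (by rw [hs.snd]; exact h1)] at h2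
      exact h01 h2.symm
  have hP : Peps.P s = Peps.P s' := by
    apply hs.P.ext hs'.P
    intro x
    rw [hA hs, hA hs']
    constructor
    · intro h1 y; rw [← h]; exact h1 y
    · intro h1 y; rw [h]; exact h1 y
  -- a column next to a marked column
  obtain ⟨x1, hx1⟩ : ∃ x1, (Peps.P s x1 : ℕ) = 1 := by
    have h1 := hs.P.zero 0
    refine ⟨0 - ((Peps.P s 0 : ℕ) : ZMod L) + (1 : ℕ), ?_⟩
    rw [hs.P.fwd _ 1 (by omega), h1]
  have hB : ∀ {s : Torus L → Lab d N}, Valid s → (Peps.P s x1 : ℕ) = 1 → ∀ y, ((Peps.Q s y : ℕ) = 0 ↔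
      letter hd (s (x1, y)) = ⟨1, by omega⟩) := by
    intro s hs hx y
    constructor
    · intro hy
      rw [letter, if_neg (by rw [hs.fst]; simp only; omega), if_pos (by rw [hs.snd]; exact hy)]
    · intro hl
      by_contra hy
      rw [letter, if_neg (by rw [hs.fst]; simp only; omega), if_neg (by rw [hs.snd]; exact hy),
        if_pos (by rw [hs.fst]; exact hx)] at hl
      exact h01 hl
  have hQ : Peps.Q s = Peps.Q s' := by
    apply hs.Q.ext hs'.Q
    intro y
    rw [hB hs hx1, hB hs' (by rw [← hP]; exact hx1), h]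
  apply hs.ext hs' hP hQ
  intro k hk1 hk2
  funext u
  set x : Torus L := (k.1 + ((u.1.val + 2 : ℕ) : ZMod L), k.2 + ((u.2.val + 1 : ℕ) : ZMod L)) with hx
  have hu1 := ZMod.val_lt u.1
  have hu2 := ZMod.val_lt u.2
  have e1 : (Peps.P s x.1 : ℕ) = u.1.val + 2 := by
    rw [hx]; simp only
    rw [hs.P.fwd _ _ (by omega), hk1, zero_add]
  have e2 : (Peps.Q s x.2 : ℕ) = u.2.val + 1 := by
    rw [hx]; simp only
    rw [hs.Q.fwd _ _ (by omega), hk2, zero_add]
  have hcor : cor (Peps.P s) (Peps.Q s) x = k := by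
    rw [cor, e1, e2, hx]
    simp
  have key : ∀ {s : Torus L → Lab d N}, Valid s → (Peps.P s x.1 : ℕ) = u.1.val + 2 →
      (Peps.Q s x.2 : ℕ) = u.2.val + 1 → cor (Peps.P s) (Peps.Q s) x = k →
      letter hd (s x) = (s k).2.2 u := by
    intro s hs e1 e2 hcor
    have f1 : ((s x).1 : ℕ) = u.1.val + 2 := by rw [hs.fst]; exact e1
    have f2 : ((s x).2.1 : ℕ) = u.2.val + 1 := by rw [hs.snd]; exact e2
    rw [letter_content hd _ (by omega) (by omega) (by omega) (by omega), f1, f2, hs.cont x, hcor]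
    congr 1
    ext <;> simp
  rw [← key hs e1 e2 hcor, h x]
  exact key hs' (by rw [← hP]; exact e1) (by rw [← hQ]; exact e2) (by rw [← hP, ← hQ]; exact hcor)

section mk

variable (p q : ZMod L → Fin (N + 3)) (hp : IsPhase N L p) (hq : IsPhase N L q)

/-- the corners of the blocks -/
abbrev K (p q : ZMod L → Fin (N + 3)) : Type := {k : Torus L // (p k.1 : ℕ) = 0 ∧ (q k.2 : ℕ) = 0}

/-- the labelling with given phases and given contents of the blocks -/
def mk (hp : IsPhase N L p) (hq : IsPhase N L q) (g : K p q → Cfg d N) : Torus L → Lab d N :=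
  fun x => (p x.1, q x.2, g ⟨cor p q x, hp.zero x.1, hq.zero x.2⟩)

lemma mk_P (g : K p q → Cfg d N) : P (mk p q hp hq g) = p := rfl
lemma mk_Q (g : K p q → Cfg d N) : Q (mk p q hp hq g) = q := rfl

lemma mk_valid (g : K p q → Cfg d N) : Valid (mk p q hp hq g) := by
  intro x
  refine ⟨⟨hp x.1, rfl, ?_⟩, ⟨rfl, hq x.2, ?_⟩⟩
  · intro h
    simp only [mk] at h ⊢
    congr 1
    apply Subtype.ext
    simp only [cor]
    ext
    · simp only
      rcases hp x.1 with h1 | ⟨h1, _⟩
      · rw [h1]; push_cast; ring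
      · exact absurd h1 h
    · rfl
  · intro h
    simp only [mk] at h ⊢
    congr 1
    apply Subtype.ext
    simp only [cor]
    ext
    · rfl
    · simp only
      rcases hq x.2 with h1 | ⟨h1, _⟩
      · rw [h1]; push_cast; ring
      · exact absurd h1 h

lemma cor_self (k : K p q) : cor p q k.1 = k.1 := by
  rw [cor, k.2.1, k.2.2]
  simp

lemma mk_cont (g : K p q → Cfg d N) (k : K p q) : (mk p q hp hq g k.1).2.2 = g k := by
  simp only [mk]
  congr 1
  exact Subtype.ext (cor_self p q k)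

end mk

/-- sums over valid labellings with given phases -/
lemma sum_valid_fiber [NeZero L] [NeZero N] {M : Type} [AddCommMonoid M] [DecidablePred (Valid : (Torus L → Lab d N) → Prop)]
    (p q : ZMod L → Fin (N + 3)) (hp : IsPhase N L p) (hq : IsPhase N L q) (F : (Torus L → Lab d N) → M) :
    ∑ s ∈ univ.filter (fun s : Torus L → Lab d N => Valid s ∧ P s = p ∧ Q s = q), F s
      = ∑ g : K p q → Cfg d N, F (mk p q hp hq g) := by
  symm
  apply Finset.sum_bij (fun g _ => mk p q hp hq g)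
  · intro g _
    simp only [mem_filter, mem_univ, true_and]
    exact ⟨mk_valid p q hp hq g, rfl, rfl⟩
  · intro g _ g' _ h
    funext k
    rw [← mk_cont p q hp hq g, ← mk_cont p q hp hq g', h]
  · intro s hs
    simp only [mem_filter, mem_univ, true_and] at hs
    obtain ⟨hs, rfl, rfl⟩ := hs
    refine ⟨fun k => (s k.1).2.2, mem_univ _, ?_⟩
    apply (mk_valid _ _ hp hq _).ext hs rfl rfl
    intro k hk1 hk2
    exact mk_cont (P s) (Q s) hp hq _ ⟨k, hk1, hk2⟩
  · intro g _; rfl

/-- the weight of a labelling is a product over the blocks -/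
lemma prod_wt_mk [NeZero L] (ψ : Vec d N) (p q : ZMod L → Fin (N + 3)) (hp : IsPhase N L p) (hq : IsPhase N L q)
    (g : K p q → Cfg d N) : ∏ x : Torus L, wt ψ (mk p q hp hq g x) = ∏ k : K p q, ψ (g k) := by
  classical
  have h1 : ∀ x : Torus L, wt ψ (mk p q hp hq g x)
      = if (p x.1 : ℕ) = 0 ∧ (q x.2 : ℕ) = 0 then ψ (mk p q hp hq g x).2.2 else 1 := fun x => rfl
  rw [Finset.prod_congr rfl (fun x _ => h1 x), ← Finset.prod_filter]
  rw [← Finset.prod_subtype_eq_prod_filter, ]
  rw [Finset.subtype_univ]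
  apply Finset.prod_congr rfl
  intro k _
  congr 1
  exact mk_cont p q hp hq g k

/-- PEPS with arbitrary finite index type. -/
noncomputable def pepsG {β : Type} [Fintype β] (A : Fin d → β → β → β → β → ℂ) (L : ℕ) [NeZero L] :
    Vec d L := fun σ =>
  ∑ h : Torus L → β, ∑ v : Torus L → β,
    ∏ x : Torus L, A (σ x) (h (x.1 - 1, x.2)) (h x) (v (x.1, x.2 - 1)) (v x)

open Classical in
/-- the tensor -/
noncomputable def AB (hd : 2 ≤ d) (ψ : Vec d N) : Fin d → Lab d N → Lab d N → Lab d N → Lab d N → ℂ :=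
  fun σ l r b t => if r = t ∧ σ = letter hd r ∧ OkH l r ∧ OkV b r then wt ψ r else 0

open Classical in
lemma pepsG_AB [NeZero L] [NeZero N] (hd : 2 ≤ d) (ψ : Vec d N) (σ : Cfg d L) :
    pepsG (AB hd ψ) L σ = ∑ s : Torus L → Lab d N,
      if Valid s ∧ (∀ x, σ x = letter hd (s x)) then ∏ x, wt ψ (s x) else 0 := by
  rw [pepsG]
  apply Finset.sum_congr rfl
  intro s _
  rw [Finset.sum_eq_single s]
  · simp only [AB]
    rw [Finset.prod_ite_zero]
    congr 1
    apply propext
    constructor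
    · intro h
      exact ⟨fun x => ⟨(h x (mem_univ x)).2.2.1, (h x (mem_univ x)).2.2.2⟩, fun x => (h x (mem_univ x)).2.1⟩
    · rintro ⟨h1, h2⟩ x _
      exact ⟨trivial, h2 x, (h1 x).1, (h1 x).2⟩
  · intro v _ hne
    obtain ⟨x, hx⟩ : ∃ x, s x ≠ v x := by
      by_contra h
      push Not at h
      exact hne (funext h).symm
    apply Finset.prod_eq_zero (mem_univ x)
    rw [AB, if_neg]
    rintro ⟨h, _⟩
    exact hx h
  · intro h; exact absurd (mem_univ _) h

end Pool.Agent.W790.Peps
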