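import Pool.Agent.W790.Peps.Hidden

set_option autoImplicit false
set_option linter.unusedSectionVars false

namespace Pool.Agent.W790.Peps

open Finset Function

variable {d N L : ℕ} [NeZero N] [NeZero L]

/-- the total weight of a labelling -/
noncomputable def W (ψ : Vec d N) (s : Torus L → Lab d N) : ℂ := ∏ x, wt ψ (s x)

/-- the configuration written by a labelling -/
def Th (hd : 2 ≤ d) (s : Torus L → Lab d N) : Cfg d L := fun x => letter hd (s x)

open Classical in
/-- valid labellings -/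
noncomputable def VS (d N L : ℕ) [NeZero N] [NeZero L] : Finset (Torus L → Lab d N) := univ.filter Valid

lemma mem_VS {s : Torus L → Lab d N} : s ∈ VS d N L ↔ Valid s := by simp [VS]

/-- the vector -/
noncomputable def Psi (hd : 2 ≤ d) (ψ : Vec d N) (L : ℕ) [NeZero L] : Vec d L := pepsG (AB hd ψ) L

open Classical in
lemma Psi_eq (hd : 2 ≤ d) (ψ : Vec d N) (σ : Cfg d L) :
    Psi hd ψ L σ = ∑ s ∈ VS d N L, if Th hd s = σ then W ψ s else 0 := by
  rw [Psi, pepsG_AB, VS, Finset.sum_filter]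
  apply Finset.sum_congr rfl
  intro s _
  by_cases h1 : Valid s
  · rw [if_pos h1]
    by_cases h2 : Th hd s = σ
    · rw [if_pos h2, if_pos ⟨h1, fun x => (congrFun h2 x).symm⟩]; rfl
    · rw [if_neg h2, if_neg]
      rintro ⟨_, h⟩
      exact h2 (funext fun x => (h x).symm)
  · rw [if_neg h1, if_neg]
    rintro ⟨h, _⟩
    exact h1 h

lemma Th_inj (hd : 2 ≤ d) {s s' : Torus L → Lab d N} (hs : s ∈ VS d N L) (hs' : s' ∈ VS d N L)
    (h : Th hd s = Th hd s') : s = s' :=
  (mem_VS.1 hs).letter_inj hd (mem_VS.1 hs') (fun x => congrFun h x)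

lemma Psi_Th (hd : 2 ≤ d) (ψ : Vec d N) {s : Torus L → Lab d N} (hs : s ∈ VS d N L) :
    Psi hd ψ L (Th hd s) = W ψ s := by
  classical
  rw [Psi_eq, Finset.sum_eq_single s]
  · rw [if_pos rfl]
  · intro s' hs' hne
    rw [if_neg]
    intro h
    exact hne (Th_inj hd hs' hs h)
  · intro h; exact absurd hs h

lemma Psi_eq_zero (hd : 2 ≤ d) (ψ : Vec d N) {σ : Cfg d L} (h : ∀ s ∈ VS d N L, Th hd s ≠ σ) :
    Psi hd ψ L σ = 0 := by
  classical
  rw [Psi_eq]
  apply Finset.sum_eq_zero
  intro s hs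
  rw [if_neg (h s hs)]

lemma sum_cfg {M : Type} [AddCommMonoid M] (hd : 2 ≤ d) (G : Cfg d L → M)
    (hG : ∀ σ, (∀ s ∈ VS d N L, Th hd s ≠ σ) → G σ = 0) :
    ∑ σ, G σ = ∑ s ∈ VS d N L, G (Th hd s) := by
  classical
  rw [← Finset.sum_image (f := G) (g := Th hd) (fun s hs s' hs' h => Th_inj hd hs hs' h)]
  symm
  apply Finset.sum_subset (Finset.subset_univ _)
  intro σ _ hσ
  apply hG
  intro s hs h
  exact hσ (mem_image.2 ⟨s, hs, h⟩)

open Classical in
/-- decomposition according to the phases -/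
lemma sum_VS {M : Type} [AddCommMonoid M] (F : (Torus L → Lab d N) → M) :
    ∑ s ∈ VS d N L, F s = ∑ pq ∈ phases N L ×ˢ phases N L,
      ∑ s ∈ univ.filter (fun s : Torus L → Lab d N => Valid s ∧ P s = pq.1 ∧ Q s = pq.2), F s := by
  rw [← Finset.sum_fiberwise_of_maps_to (g := fun s => (P s, Q s)) (t := phases N L ×ˢ phases N L)]
  · apply Finset.sum_congr rfl
    intro pq _
    apply Finset.sum_congr _ (fun _ _ => rfl)
    ext s
    simp only [mem_filter, mem_VS, mem_univ, true_and, Prod.ext_iff]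
  · intro s hs
    rw [mem_product, mem_phases, mem_phases]
    exact ⟨(mem_VS.1 hs).P, (mem_VS.1 hs).Q⟩

open Classical in
lemma fiber_norm (ψ : Vec d N) (hψ : normSq ψ = 1) (p q : ZMod L → Fin (N + 3))
    (hp : IsPhase N L p) (hq : IsPhase N L q) :
    ∑ s ∈ univ.filter (fun s : Torus L → Lab d N => Valid s ∧ P s = p ∧ Q s = q), ‖W ψ s‖ ^ 2 = 1 := by
  rw [sum_valid_fiber p q hp hq]
  have h1 : ∀ g : K p q → Cfg d N, ‖W ψ (mk p q hp hq g)‖ ^ 2 = ∏ k : K p q, ‖ψ (g k)‖ ^ 2 := by
    intro g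
    rw [W, prod_wt_mk, norm_prod, ← Finset.prod_pow]
  rw [Finset.sum_congr rfl (fun g _ => h1 g)]
  have h2 := (Finset.prod_univ_sum (fun _ : K p q => (univ : Finset (Cfg d N))) (fun _ c => ‖ψ c‖ ^ 2)).symm
  rw [Fintype.piFinset_univ] at h2
  rw [h2]
  apply Finset.prod_eq_one
  intro k _
  exact hψ

lemma normSq_Psi (hd : 2 ≤ d) (ψ : Vec d N) (hψ : normSq ψ = 1) :
    normSq (Psi hd ψ L) = ((phases N L).card : ℝ) ^ 2 := by
  classical
  rw [normSq, sum_cfg (N := N) hd]
  · rw [Finset.sum_congr rfl (fun s hs => by rw [Psi_Th hd ψ hs]), sum_VS]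
    rw [Finset.sum_congr rfl (fun pq hpq => fiber_norm ψ hψ pq.1 pq.2
      (mem_phases.1 (mem_product.1 hpq).1) (mem_phases.1 (mem_product.1 hpq).2))]
    rw [Finset.sum_const, Finset.card_product]
    simp; ring
  · intro σ hσ
    rw [Psi_eq_zero hd ψ hσ]; simp

/-- good pairs of phases: the square `[-r, r]²` lies inside the content of one block -/
def Good (r : ℕ) (p q : ZMod L → Fin (N + 3)) : Prop :=
  2 ≤ (p ((-(r : ℤ) : ℤ) : ZMod L) : ℕ) ∧ (p ((-(r : ℤ) : ℤ) : ZMod L) : ℕ) + 2 * r ≤ N + 1 ∧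
  1 ≤ (q ((-(r : ℤ) : ℤ) : ZMod L) : ℕ) ∧ (q ((-(r : ℤ) : ℤ) : ZMod L) : ℕ) + 2 * r ≤ N

lemma phase_at {p : ZMod L → Fin (N + 3)} (hp : IsPhase N L p) (r : ℕ)
    (h : (p ((-(r : ℤ) : ℤ) : ZMod L) : ℕ) + 2 * r ≤ N + 1) (i : ℤ) (hi : |i| ≤ r) :
    ∃ k : ℕ, (k : ℤ) = i + r ∧ k ≤ 2 * r ∧ (p (i : ZMod L) : ℕ) = p ((-(r : ℤ) : ℤ) : ZMod L) + k := by
  rw [abs_le] at hi
  obtain ⟨k, hk⟩ : ∃ k : ℕ, (k : ℤ) = i + r := ⟨(i + r).toNat, Int.toNat_of_nonneg (by omega)⟩
  refine ⟨k, hk, by omega, ?_⟩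
  rw [← hp.fwd _ k (by omega)]
  congr 2
  have : i = -(r : ℤ) + k := by omega
  rw [this]
  push_cast
  ring

open Classical in
/-- the contribution of a good pair of phases is the reduced density matrix of the block state. -/
lemma fiber_good (hd : 2 ≤ d) (ψ : Vec d N) (hψ : normSq ψ = 1) (hti : TransInv ψ)
    (R : Finset (ℤ × ℤ)) (r : ℕ) (hR : ∀ x ∈ R, |x.1| ≤ r ∧ |x.2| ≤ r)
    (hfL : Injective (fun x : R => pt L x)) (hfN : Injective (fun x : R => pt N x))
    (p q : ZMod L → Fin (N + 3)) (hp : IsPhase N L p) (hq : IsPhase N L q) (hg : Good r p q)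
    (a b : R → Fin d) :
    ∑ s ∈ univ.filter (fun s : Torus L → Lab d N => Valid s ∧ P s = p ∧ Q s = q),
      (if Th hd s ∘ (fun x : R => pt L x) = a then
        Psi hd ψ L (Th hd s) * starRingEnd ℂ (Psi hd ψ L (extend (fun x : R => pt L x) b (Th hd s))) else 0)
      = red (fun x : R => pt N x) ψ a b := by
  obtain ⟨hg1, hg2, hg3, hg4⟩ := hg
  set x0 : ZMod L := ((-(r : ℤ) : ℤ) : ZMod L) with hx0
  set t : Torus N := (((p x0 : ℕ) : ZMod N) + (r : ZMod N) - 2, ((q x0 : ℕ) : ZMod N) + (r : ZMod N) - 1) with ht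
  set k0 : K p q := ⟨cor p q (x0, x0), hp.zero x0, hq.zero x0⟩ with hk0
  set ft : R → Torus N := fun x => pt N x + t with hft
  have hftinj : Injective ft := (add_left_injective t).comp hfN
  -- labels of the sites of the region
  have hsite : ∀ x : R, 2 ≤ (p (pt L x).1 : ℕ) ∧ (p (pt L x).1 : ℕ) ≤ N + 1 ∧ 1 ≤ (q (pt L x).2 : ℕ) ∧
      (q (pt L x).2 : ℕ) ≤ N ∧ cor p q (pt L x) = k0.1 ∧
      ((((p (pt L x).1 : ℕ) : ZMod N) - 2, ((q (pt L x).2 : ℕ) : ZMod N) - 1) : Torus N) = ft x := by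
    intro x
    obtain ⟨hx1, hx2⟩ := hR x.1 x.2
    obtain ⟨k, hk, hk', hk''⟩ := phase_at hp r hg2 x.1.1 hx1
    obtain ⟨l, hl, hl', hl''⟩ := phase_at hq r (hg4.trans (by omega)) x.1.2 hx2
    have e1 : (p (pt L x).1 : ℕ) = (p x0 : ℕ) + k := hk''
    have e2 : (q (pt L x).2 : ℕ) = (q x0 : ℕ) + l := hl''
    refine ⟨by omega, by omega, by omega, by omega, ?_, ?_⟩
    · change cor p q (pt L x) = cor p q (x0, x0)
      simp only [cor]
      rw [e1, e2]
      have h1 : (pt L x).1 = ((x.1.1 : ℤ) : ZMod L) := rfl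
      have h2 : (pt L x).2 = ((x.1.2 : ℤ) : ZMod L) := rfl
      have h3 : ((x.1.1 : ℤ) : ZMod L) = x0 + (k : ZMod L) := by
        have : x.1.1 = -(r : ℤ) + k := by omega
        rw [this, hx0]; push_cast; ring
      have h4 : ((x.1.2 : ℤ) : ZMod L) = x0 + (l : ZMod L) := by
        have : x.1.2 = -(r : ℤ) + l := by omega
        rw [this, hx0]; push_cast; ring
      rw [h1, h2, h3, h4]
      push_cast
      ext
      · simp only; ring
      · simp only; ring
    · rw [e1, e2, hft, ht]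
      have h1 : pt N x = (((x.1.1 : ℤ) : ZMod N), ((x.1.2 : ℤ) : ZMod N)) := rfl
      have h3 : ((x.1.1 : ℤ) : ZMod N) = (k : ZMod N) - (r : ZMod N) := by
        have : x.1.1 = (k : ℤ) - r := by omega
        rw [this]; push_cast; ring
      have h4 : ((x.1.2 : ℤ) : ZMod N) = (l : ZMod N) - (r : ZMod N) := by
        have : x.1.2 = (l : ℤ) - r := by omega
        rw [this]; push_cast; ring
      simp only [h1, h3, h4]
      push_cast
      ext <;> simp only [Prod.mk_add_mk] <;> ring
  have hlet : ∀ (g : K p q → Cfg d N) (x : R), Th hd (mk p q hp hq g) (pt L x) = g k0 (ft x) := by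
    intro g x
    obtain ⟨h1, h2, h3, h4, h5, h6⟩ := hsite x
    rw [Th, letter_content hd _ h1 h2 h3 h4]
    rw [← h6]
    simp only [mk]
    congr 2
  have hext : ∀ g : K p q → Cfg d N, extend (fun x : R => pt L x) b (Th hd (mk p q hp hq g))
      = Th hd (mk p q hp hq (Function.update g k0 (extend ft b (g k0)))) := by
    intro g
    funext x
    by_cases hx : ∃ y : R, pt L y = x
    · obtain ⟨y, rfl⟩ := hx
      rw [hlet]
      rw [Function.update_self, hftinj.extend_apply]
      exact hfL.extend_apply _ _ y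
    · rw [extend_apply' _ _ _ hx]
      by_cases hc : cor p q x = k0.1
      · have hk : (⟨cor p q x, hp.zero x.1, hq.zero x.2⟩ : K p q) = k0 := Subtype.ext hc
        simp only [Th, mk, hk, Function.update_self]
        simp only [letter]
        split_ifs with c1 c2 c3 c4
        · rfl
        · rfl
        · rfl
        · rw [extend_apply']
          rintro ⟨y, hy⟩
          apply hx
          refine ⟨y, ?_⟩
          obtain ⟨h1, h2, h3, h4, h5, h6⟩ := hsite y
          rw [← h6] at hy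
          rw [Prod.ext_iff] at hy
          simp only [sub_left_inj] at hy
          have e1 : (p (pt L y).1 : ℕ) = p x.1 := by
            have := (ZMod.natCast_eq_natCast_iff' _ _ _).1 hy.1
            have h7 : ∀ u : ℕ, 2 ≤ u → u ≤ N + 1 → u % N = if u = N + 1 then 1 % N else if u = N then 0 else u := by
              intro u hu1 hu2
              split_ifs with h8 h9
              · rw [h8]; simp
              · rw [h9]; simp
              · exact Nat.mod_eq_of_lt (by omega)
            rw [h7 _ h1 h2, h7 _ (by omega) c4.1] at this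
            rcases Nat.lt_or_ge 1 N with hN | hN
            · rw [Nat.mod_eq_of_lt hN] at this
              split_ifs at this <;> omega
            · have : N = 1 := by have := NeZero.pos N; omega
              omega
          have e2 : (q (pt L y).2 : ℕ) = q x.2 := by
            have := (ZMod.natCast_eq_natCast_iff' _ _ _).1 hy.2
            have h7 : ∀ u : ℕ, 1 ≤ u → u ≤ N → u % N = if u = N then 0 else u := by
              intro u hu1 hu2
              split_ifs with h9
              · rw [h9]; simp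
              · exact Nat.mod_eq_of_lt (by omega)
            rw [h7 _ h3 h4, h7 _ (by omega) c4.2] at this
            split_ifs at this <;> omega
          have h8 : cor p q (pt L y) = cor p q x := by rw [h5, hc]
          rw [cor, cor, e1, e2, Prod.ext_iff] at h8
          simp only [sub_left_inj] at h8
          exact Prod.ext h8.1 h8.2
        · rfl
      · have hk : (⟨cor p q x, hp.zero x.1, hq.zero x.2⟩ : K p q) ≠ k0 := by
          intro h; exact hc (congrArg Subtype.val h)
        simp only [Th, mk, Function.update_of_ne hk]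
  rw [sum_valid_fiber p q hp hq]
  -- product form
  set F : K p q → Cfg d N → ℂ := fun k c => if k = k0 then
      (if c ∘ ft = a then ψ c * starRingEnd ℂ (ψ (extend ft b c)) else 0) else ψ c * starRingEnd ℂ (ψ c) with hF
  have hprod : ∀ g : K p q → Cfg d N,
      (if Th hd (mk p q hp hq g) ∘ (fun x : R => pt L x) = a then
        Psi hd ψ L (Th hd (mk p q hp hq g)) * starRingEnd ℂ (Psi hd ψ L (extend (fun x : R => pt L x) b (Th hd (mk p q hp hq g)))) else 0)
      = ∏ k : K p q, F k (g k) := by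
    intro g
    have hcomp : Th hd (mk p q hp hq g) ∘ (fun x : R => pt L x) = g k0 ∘ ft := by
      funext x; exact hlet g x
    rw [hcomp, hext, Psi_Th hd ψ (mem_VS.2 (mk_valid p q hp hq g)),
      Psi_Th hd ψ (mem_VS.2 (mk_valid p q hp hq _)), W, W, prod_wt_mk, prod_wt_mk, map_prod,
      ← Finset.prod_mul_distrib]
    have hsplit : ∀ G : K p q → ℂ, ∏ k, G k = G k0 * ∏ k ∈ univ.erase k0, G k :=
      fun G => (Finset.mul_prod_erase univ G (mem_univ k0)).symm
    rw [hsplit, hsplit (fun k => F k (g k))]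
    have hF0 : F k0 (g k0) = if g k0 ∘ ft = a then ψ (g k0) * starRingEnd ℂ (ψ (extend ft b (g k0))) else 0 := by
      rw [hF]; simp
    rw [hF0, Function.update_self]
    have hrest : ∏ k ∈ univ.erase k0, (ψ (g k) * starRingEnd ℂ (ψ (Function.update g k0 (extend ft b (g k0)) k)))
        = ∏ k ∈ univ.erase k0, F k (g k) := by
      apply Finset.prod_congr rfl
      intro k hk
      have hk' := (mem_erase.1 hk).1
      rw [Function.update_of_ne hk', hF]
      simp [hk']
    rw [hrest]
    split_ifs with h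
    · rfl
    · rw [zero_mul]
  rw [Finset.sum_congr rfl (fun g _ => hprod g)]
  have h2 := (Finset.prod_univ_sum (fun _ : K p q => (univ : Finset (Cfg d N))) F).symm
  rw [Fintype.piFinset_univ] at h2
  rw [h2, ← Finset.mul_prod_erase univ _ (mem_univ k0)]
  have h3 : ∏ k ∈ univ.erase k0, ∑ c : Cfg d N, F k c = 1 := by
    apply Finset.prod_eq_one
    intro k hk
    have hk' := (mem_erase.1 hk).1
    have h4 : ∀ c, F k c = ((‖ψ c‖ ^ 2 : ℝ) : ℂ) := by
      intro c
      rw [hF]
      simp only [hk', if_false]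
      rw [Complex.mul_conj, Complex.normSq_eq_norm_sq]
    rw [Finset.sum_congr rfl (fun c _ => h4 c), ← Complex.ofReal_sum]
    have : ∑ c : Cfg d N, ‖ψ c‖ ^ 2 = 1 := hψ
    rw [this]; simp
  rw [h3, mul_one]
  have h5 : ∑ c : Cfg d N, F k0 c = red ft ψ a b := by
    rw [red]
    apply Finset.sum_congr rfl
    intro c _
    rw [hF]; simp
  rw [h5]
  exact red_translate hfN ψ hti t a b

end Pool.Agent.W790.Peps
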