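import Mathlib

set_option autoImplicit false

namespace Pool.Agent.W790.Peps

open Finset

/-- one step of a phase: advance by one, or reset to zero once the phase is at least `N + 1`. -/
def Step (N : ℕ) (a b : Fin (N + 3)) : Prop :=
  (b : ℕ) = a + 1 ∨ ((b : ℕ) = 0 ∧ N + 1 ≤ (a : ℕ))

/-- a phase function on the cycle. -/
def IsPhase (N L : ℕ) (p : ZMod L → Fin (N + 3)) : Prop := ∀ x, Step N (p (x - 1)) (p x)

variable {N L : ℕ}

lemma IsPhase.fwd {p : ZMod L → Fin (N + 3)} (hp : IsPhase N L p) (x : ZMod L) (k : ℕ)
    (hk : (p x : ℕ) + k ≤ N + 1) : (p (x + k) : ℕ) = p x + k := by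
  induction k with
  | zero => simp
  | succ k ih =>
    have h1 := ih (by omega)
    have h2 := hp (x + (k + 1 : ℕ))
    have h3 : x + ((k + 1 : ℕ) : ZMod L) - 1 = x + k := by push_cast; ring
    rw [h3] at h2
    rcases h2 with h2 | ⟨_, h2⟩
    · omega
    · omega

lemma IsPhase.bwd {p : ZMod L → Fin (N + 3)} (hp : IsPhase N L p) (x : ZMod L) (k : ℕ)
    (hk : k ≤ (p x : ℕ)) : (p (x - k) : ℕ) = p x - k := by
  induction k with
  | zero => simp
  | succ k ih =>
    have h1 := ih (by omega)
    have h2 := hp (x - k)
    have h3 : x - ((k + 1 : ℕ) : ZMod L) = x - k - 1 := by push_cast; ring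
    rw [h3]
    rcases h2 with h2 | ⟨h2, _⟩
    · omega
    · omega

lemma IsPhase.zero {p : ZMod L → Fin (N + 3)} (hp : IsPhase N L p) (x : ZMod L) :
    (p (x - ((p x : ℕ) : ZMod L)) : ℕ) = 0 := by
  have := hp.bwd x (p x) le_rfl
  omega

lemma IsPhase.ext {p q : ZMod L → Fin (N + 3)} (hp : IsPhase N L p) (hq : IsPhase N L q)
    (h : ∀ x, (p x : ℕ) = 0 ↔ (q x : ℕ) = 0) : p = q := by
  funext x
  have key : ∀ i : ℕ, i ≤ (p x : ℕ) → (q (x - ((p x : ℕ) : ZMod L) + i) : ℕ) = i := by
    intro i
    induction i with
    | zero =>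
      intro _
      simp only [Nat.cast_zero, add_zero]
      exact (h _).1 (hp.zero x)
    | succ i ih =>
      intro hi
      have h1 := ih (by omega)
      have h2 := hq (x - ((p x : ℕ) : ZMod L) + ((i + 1 : ℕ) : ZMod L))
      have h3 : x - ((p x : ℕ) : ZMod L) + ((i + 1 : ℕ) : ZMod L) - 1
          = x - ((p x : ℕ) : ZMod L) + i := by push_cast; ring
      rw [h3] at h2
      rcases h2 with h2 | ⟨h2, _⟩
      · omega
      · exfalso
        have h4 := (h _).2 h2
        have h5 := hp.bwd x ((p x : ℕ) - (i + 1)) (by omega)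
        have h6 : x - (((p x : ℕ) - (i + 1) : ℕ) : ZMod L)
            = x - ((p x : ℕ) : ZMod L) + ((i + 1 : ℕ) : ZMod L) := by
          rw [Nat.cast_sub hi]; ring
        rw [h6] at h5
        omega
  have := key (p x) le_rfl
  rw [sub_add_cancel] at this
  exact Fin.ext this.symm

lemma IsPhase.shift {p : ZMod L → Fin (N + 3)} (hp : IsPhase N L p) (t : ZMod L) :
    IsPhase N L (fun x => p (x + t)) := by
  intro x
  have := hp (x + t)
  have h : x + t - 1 = x - 1 + t := by ring
  rw [h] at this
  exact this

open Classical in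
/-- the finite set of phase functions. -/
noncomputable def phases (N L : ℕ) [NeZero L] : Finset (ZMod L → Fin (N + 3)) :=
  univ.filter (IsPhase N L)

lemma mem_phases [NeZero L] {p : ZMod L → Fin (N + 3)} : p ∈ phases N L ↔ IsPhase N L p := by
  simp [phases]

/-- at a given site every phase value is taken by at most a fraction `1 / (N + 2)`. -/
lemma card_phase_le [NeZero L] (x : ZMod L) (j : Fin (N + 3)) :
    (N + 2) * ((phases N L).filter (fun p => p x = j)).card ≤ (phases N L).card := by
  classical
  -- number of phases with a zero at `y` does not depend on `y`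
  set z : ZMod L → ℕ := fun y => ((phases N L).filter (fun p => (p y : ℕ) = 0)).card with hz
  have hzc : ∀ y y', z y = z y' := by
    intro y y'
    rw [hz]
    apply Finset.card_bij' (fun p _ => fun x => p (x + (y - y'))) (fun p _ => fun x => p (x + (y' - y)))
    · intro p hp
      simp only [mem_filter, mem_phases] at hp ⊢
      exact ⟨hp.1.shift _, by rw [add_sub_cancel]; exact hp.2⟩
    · intro p hp
      simp only [mem_filter, mem_phases] at hp ⊢
      exact ⟨hp.1.shift _, by rw [add_sub_cancel]; exact hp.2⟩
    · intro p hp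
      funext x
      simp only
      congr 1
      ring
    · intro p hp
      funext x
      simp only
      congr 1
      ring
  have h1 : ((phases N L).filter (fun p => p x = j)).card ≤ z (x - ((j : ℕ) : ZMod L)) := by
    apply Finset.card_le_card
    intro p hp
    simp only [mem_filter, mem_phases] at hp ⊢
    refine ⟨hp.1, ?_⟩
    have := hp.1.zero x
    rw [hp.2] at this
    exact this
  have h2 : (N + 2) * z x ≤ (phases N L).card := by
    have h3 : ((phases N L).filter (fun p => (p x : ℕ) < N + 2)).card = ∑ i ∈ range (N + 2), z (x - (i : ZMod L)) := by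
      have h4 : (phases N L).filter (fun p => (p x : ℕ) < N + 2)
          = (range (N + 2)).biUnion (fun i => (phases N L).filter (fun p => (p (x - (i : ZMod L)) : ℕ) = 0 ∧ (p x : ℕ) = i)) := by
        ext p
        simp only [mem_filter, mem_phases, mem_biUnion, mem_range]
        constructor
        · rintro ⟨hp, hlt⟩
          exact ⟨p x, hlt, hp, hp.zero x, rfl⟩
        · rintro ⟨i, hi, hp, _, h⟩
          exact ⟨hp, by omega⟩
      rw [h4, Finset.card_biUnion]
      · apply Finset.sum_congr rfl
        intro i hi
        rw [hz]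
        congr 1
        ext p
        simp only [mem_filter, mem_phases, mem_range] at hi ⊢
        constructor
        · rintro ⟨h, h', _⟩; exact ⟨h, h'⟩
        · rintro ⟨h, h'⟩
          refine ⟨h, h', ?_⟩
          have := h.fwd (x - i) i (by omega)
          rw [sub_add_cancel] at this
          omega
      · intro i _ i' _ hne
        rw [Function.onFun, Finset.disjoint_left]
        intro p hp hp'
        simp only [mem_filter] at hp hp'
        exact hne (by omega)
    have h5 : ∑ i ∈ range (N + 2), z (x - (i : ZMod L)) = (N + 2) * z x := by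
      calc ∑ i ∈ range (N + 2), z (x - (i : ZMod L)) = ∑ i ∈ range (N + 2), z x :=
            Finset.sum_congr rfl (fun i _ => hzc _ _)
        _ = (N + 2) * z x := by simp
    rw [← h5, ← h3]
    exact Finset.card_filter_le _ _
  calc (N + 2) * ((phases N L).filter (fun p => p x = j)).card
      ≤ (N + 2) * z (x - ((j : ℕ) : ZMod L)) := Nat.mul_le_mul_left _ h1
    _ = (N + 2) * z x := by rw [hzc _ x]
    _ ≤ _ := h2

/-- phase functions with prescribed bad set of values at a site are rare. -/
lemma card_phase_mem_le [NeZero L] (x : ZMod L) (S : Finset (Fin (N + 3))) :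
    (N + 2) * ((phases N L).filter (fun p => p x ∈ S)).card ≤ S.card * (phases N L).card := by
  classical
  have h1 : ((phases N L).filter (fun p => p x ∈ S)).card ≤ ∑ j ∈ S, ((phases N L).filter (fun p => p x = j)).card := by
    have : (phases N L).filter (fun p => p x ∈ S) ⊆ S.biUnion (fun j => (phases N L).filter (fun p => p x = j)) := by
      intro p hp
      simp only [mem_filter, mem_biUnion] at hp ⊢
      exact ⟨p x, hp.2, hp.1, rfl⟩
    exact (Finset.card_le_card this).trans Finset.card_biUnion_le
  calc (N + 2) * ((phases N L).filter (fun p => p x ∈ S)).card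
      ≤ (N + 2) * ∑ j ∈ S, ((phases N L).filter (fun p => p x = j)).card := Nat.mul_le_mul_left _ h1
    _ = ∑ j ∈ S, (N + 2) * ((phases N L).filter (fun p => p x = j)).card := Finset.mul_sum _ _ _
    _ ≤ ∑ j ∈ S, (phases N L).card := Finset.sum_le_sum (fun j _ => card_phase_le x j)
    _ = _ := by simp

/-- for large `L` there is a phase function. -/
lemma exists_phase (N L : ℕ) [NeZero L] (hL : (N + 3) * (N + 3) ≤ L) : ∃ p, IsPhase N L p := by
  set m := N + 2 with hm
  set b := L % m with hb
  have hbm : b < m := Nat.mod_lt _ (by omega)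
  have hdiv : m * (L / m) + b = L := Nat.div_add_mod L m
  have hqa : m + 1 ≤ L / m := by
    rw [Nat.le_div_iff_mul_le (by omega)]
    nlinarith
  obtain ⟨a, ha⟩ : ∃ a, L / m = a + 1 + b := ⟨L / m - 1 - b, by omega⟩
  have hLeq : L = (a + 1) * m + b * (m + 1) := by
    rw [ha] at hdiv
    nlinarith
  -- the phase as a function of the value
  set f : ℕ → ℕ := fun v => if v < b * (m + 1) then v % (m + 1) else (v - b * (m + 1)) % m with hf
  have hflt : ∀ v, f v < N + 3 := by
    intro v
    rw [hf]
    simp only
    split_ifs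
    · have := Nat.mod_lt v (show 0 < m + 1 by omega); omega
    · have := Nat.mod_lt (v - b * (m + 1)) (show 0 < m by omega); omega
  have modstep : ∀ (k v : ℕ), 0 < k → (v + 1) % k = v % k + 1 ∨ ((v + 1) % k = 0 ∧ v % k = k - 1) := by
    intro k v hk
    have h1 := Nat.mod_lt v hk
    rcases Nat.lt_or_ge (v % k + 1) k with h | h
    · left
      rw [Nat.add_mod]
      rcases Nat.lt_or_ge 1 k with h2 | h2
      · rw [Nat.mod_eq_of_lt h2, Nat.mod_eq_of_lt h]
      · omega
    · right
      have h2 : v % k = k - 1 := by omega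
      refine ⟨?_, h2⟩
      have h3 := Nat.div_add_mod v k
      have : v + 1 = k * (v / k + 1) := by
        rw [h2] at h3
        rw [Nat.mul_add]
        omega
      rw [this]
      simp
  have hstep : ∀ v, f (v + 1) = f v + 1 ∨ (f (v + 1) = 0 ∧ N + 1 ≤ f v) := by
    intro v
    rw [hf]
    simp only
    rcases lt_trichotomy (v + 1) (b * (m + 1)) with h | h | h
    · rw [if_pos h, if_pos (by omega)]
      rcases modstep (m + 1) v (by omega) with h1 | ⟨h1, h2⟩
      · left; exact h1
      · right; exact ⟨h1, by omega⟩
    · rw [if_neg (by omega), if_pos (by omega)]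
      right
      refine ⟨by rw [h]; simp, ?_⟩
      rcases modstep (m + 1) v (by omega) with h1 | ⟨h1, h2⟩
      · exfalso
        rw [h] at h1
        simp at h1
      · omega
    · rw [if_neg (by omega), if_neg (by omega)]
      have h3 : v + 1 - b * (m + 1) = (v - b * (m + 1)) + 1 := by omega
      rw [h3]
      rcases modstep m (v - b * (m + 1)) (by omega) with h1 | ⟨h1, h2⟩
      · left; exact h1
      · right; exact ⟨h1, by omega⟩
  have hwrap : f 0 = 0 ∧ N + 1 ≤ f (L - 1) := by
    constructor
    · rw [hf]
      simp only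
      split_ifs <;> simp
    · rw [hf]
      simp only
      have h1 : b * (m + 1) ≤ L - 1 := by
        have : 1 ≤ (a + 1) * m := by nlinarith
        omega
      rw [if_neg (by omega)]
      have h2 : L - 1 - b * (m + 1) = a * m + (m - 1) := by
        have : (a + 1) * m = a * m + m := by ring
        omega
      rw [h2, Nat.add_comm (a * m), Nat.add_mul_mod_self_right, Nat.mod_eq_of_lt (by omega)]
      omega
  refine ⟨fun x => ⟨f x.val, hflt _⟩, ?_⟩
  intro x
  rw [Step]
  simp only
  rcases Nat.eq_zero_or_pos x.val with h0 | h0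
  · right
    have hx : x = 0 := by rwa [ZMod.val_eq_zero] at h0
    have hval : (x - 1).val = L - 1 := by
      rw [hx, zero_sub]
      have hL1 : 1 ≤ L := by nlinarith
      have : (-1 : ZMod L) = ((L - 1 : ℕ) : ZMod L) := by
        rw [Nat.cast_sub hL1]; simp
      rw [this, ZMod.val_natCast_of_lt (by omega)]
    rw [h0, hval]
    exact hwrap
  · have hval : (x - 1).val = x.val - 1 := by
      have hx : x = ((x.val : ℕ) : ZMod L) := by simp
      have h1 : x - 1 = ((x.val - 1 : ℕ) : ZMod L) := by
        rw [Nat.cast_sub h0]; simp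
      rw [h1, ZMod.val_natCast_of_lt]
      have := ZMod.val_lt x
      omega
    have h2 := hstep (x.val - 1)
    rw [Nat.sub_add_cancel h0] at h2
    rw [hval]
    exact h2

end Pool.Agent.W790.Peps
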